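import Pool.Agent.P.MP_d44d06_co.Defs

-- part Pool.Agent.P.MP_d44d06_co.Build
section

/-! Growing one-legged plane caterpillars on an interval of points. -/

namespace Pool.Agent.P.MP_d44d06_co

/-- Growth of a one-legged caterpillar on the interval `[a, b]` with spine end `h`; the flag says
whether `h` may already carry a leg. -/
inductive Gr (ok : ℕ → ℕ → Prop) : ℕ → ℕ → ℕ → Bool → Prop
  | start (c : ℕ) : Gr ok c c c false
  | legL {a b h : ℕ} : Gr ok (a + 1) b h false → ok a h → Gr ok a b h true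
  | legR {a b h : ℕ} : Gr ok a b h false → ok h (b + 1) → Gr ok a (b + 1) h true
  | spL {a b h : ℕ} {l : Bool} : Gr ok (a + 1) b h l → ok a h → Gr ok a b a false
  | spR {a b h : ℕ} {l : Bool} : Gr ok a b h l → ok h (b + 1) → Gr ok a (b + 1) (b + 1) false
  | byL {a b h : ℕ} {l : Bool} : Gr ok (a + 2) b h l → ok a h → ok a (a + 1) → Gr ok a b a true
  | byR {a b h : ℕ} {l : Bool} : Gr ok a b h l → ok h (b + 2) → ok (b + 1) (b + 2) →
      Gr ok a (b + 2) (b + 2) true

/-- Crossing of the chords `a b` and `c d`, one of the two orders. -/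
def Cr (a b c d : ℕ) : Prop := min a b < min c d ∧ min c d < max a b ∧ max a b < max c d

structure Cat (ok : ℕ → ℕ → Prop) (V : ℕ → Prop) (h : ℕ) (l : Bool) (c : ℕ) (par rk : ℕ → ℕ)
    (t : List ℕ) : Prop where
  hc : V c
  par_mem : ∀ v, V v → v ≠ c → V (par v)
  rk_lt : ∀ v, V v → v ≠ c → rk (par v) < rk v
  ok_e : ∀ v, V v → v ≠ c → (v < par v ∧ ok v (par v)) ∨ (par v < v ∧ ok (par v) v)
  chain : (h :: t).IsChain (fun x y => x ≠ c ∧ par x = y)
  last : (h :: t).getLast (List.cons_ne_nil _ _) = c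
  sp_mem : ∀ x ∈ h :: t, V x
  leg_par : ∀ v, V v → v ∉ h :: t → par v ∈ h :: t
  leg_inj : ∀ v w, V v → V w → v ∉ h :: t → w ∉ h :: t → par v = par w → v = w
  leg_free : l = false → ∀ v, V v → v ∉ h :: t → par v ≠ h
  nocross : ∀ v w, V v → V w → v ≠ c → w ≠ c → ¬ Cr v (par v) w (par w)
  unc : ∀ v, V v → v ≠ c → ¬ (v < h ∧ h < par v) ∧ ¬ (par v < h ∧ h < v)

lemma chain_update {c v y : ℕ} {par : ℕ → ℕ} {L : List ℕ} (hv : v ∉ L)
    (hL : L.IsChain (fun x y => x ≠ c ∧ par x = y)) :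
    L.IsChain (fun x z => x ≠ c ∧ Function.update par v y x = z) := by
  induction L with
  | nil => exact List.isChain_nil
  | cons a t ih =>
    cases t with
    | nil => exact List.isChain_singleton _
    | cons b t =>
      rw [List.isChain_cons_cons] at hL ⊢
      have ha : a ≠ v := fun e => hv (by simp [e])
      refine ⟨⟨hL.1.1, ?_⟩, ih (fun e => hv (List.mem_cons_of_mem _ e)) hL.2⟩
      rw [Function.update_of_ne ha]; exact hL.1.2

lemma Cat.addSpine {ok V h l c par rk t} (C : Cat ok V h l c par rk t) (v : ℕ)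
    (hv : (∀ x, V x → v < x) ∨ (∀ x, V x → x < v))
    (hok : (v < h ∧ ok v h) ∨ (h < v ∧ ok h v)) :
    Cat ok (fun x => V x ∨ x = v) v false c (Function.update par v h)
      (Function.update rk v (rk h + 1)) (h :: t) := by
  have hV : ∀ x, V x → x ≠ v := fun x hx e => by
    rcases hv with hv | hv <;> exact absurd (hv x hx) (by omega)
  have hh : V h := C.sp_mem h (by simp)
  have hvc : v ≠ c := fun e => hV c C.hc e.symm
  have hnot : v ∉ h :: t := fun e => hV v (C.sp_mem v e) rfl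
  have up : ∀ x, V x → Function.update par v h x = par x := fun x hx =>
    Function.update_of_ne (hV x hx) _ _
  have ur : ∀ x, V x → Function.update rk v (rk h + 1) x = rk x := fun x hx =>
    Function.update_of_ne (hV x hx) _ _
  have leg : ∀ x, (V x ∨ x = v) → x ∉ v :: h :: t → V x ∧ x ∉ h :: t := fun x hx hn =>
    ⟨hx.resolve_right fun e => hn (by simp [e]), fun e => hn (List.mem_cons_of_mem _ e)⟩
  refine ⟨Or.inl C.hc, ?_, ?_, ?_, ?_, ?_, ?_, ?_, ?_, ?_, ?_, ?_⟩
  · rintro x (hx | rfl) hc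
    · rw [up x hx]; exact Or.inl (C.par_mem x hx hc)
    · simp [hh]
  · rintro x (hx | rfl) hc
    · rw [up x hx, ur x hx, ur _ (C.par_mem x hx hc)]; exact C.rk_lt x hx hc
    · rw [Function.update_self, Function.update_self, ur h hh]; omega
  · rintro x (hx | rfl) hc
    · rw [up x hx]; exact C.ok_e x hx hc
    · rw [Function.update_self]; exact hok
  · rw [List.isChain_cons_cons]
    exact ⟨⟨hvc, Function.update_self _ _ _⟩, chain_update hnot C.chain⟩
  · rw [List.getLast_cons (List.cons_ne_nil _ _)]; exact C.last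
  · intro x hx
    rcases List.mem_cons.1 hx with rfl | hx
    · exact Or.inr rfl
    · exact Or.inl (C.sp_mem x hx)
  · intro x hx hn
    obtain ⟨h1, h2⟩ := leg x hx hn
    rw [up x h1]; exact List.mem_cons_of_mem _ (C.leg_par x h1 h2)
  · intro x y hx hy hn hm e
    obtain ⟨h1, h2⟩ := leg x hx hn
    obtain ⟨h3, h4⟩ := leg y hy hm
    rw [up x h1, up y h3] at e
    exact C.leg_inj x y h1 h3 h2 h4 e
  · intro _ x hx hn
    obtain ⟨h1, h2⟩ := leg x hx hn
    rw [up x h1]; exact hV _ (C.sp_mem _ (C.leg_par x h1 h2))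
  · rintro x y (hx | rfl) (hy | rfl) hxc hyc
    · rw [up x hx, up y hy]; exact C.nocross x y hx hy hxc hyc
    · rw [up x hx, Function.update_self]
      have h1 := C.unc x hx hxc
      have h2 := C.par_mem x hx hxc
      unfold Cr
      rcases hv with hv | hv
      · have := hv x hx; have := hv _ h2; have := hv _ hh; omega
      · have := hv x hx; have := hv _ h2; have := hv _ hh; omega
    · rw [up y hy, Function.update_self]
      have h1 := C.unc y hy hyc
      have h2 := C.par_mem y hy hyc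
      unfold Cr
      rcases hv with hv | hv
      · have := hv y hy; have := hv _ h2; have := hv _ hh; omega
      · have := hv y hy; have := hv _ h2; have := hv _ hh; omega
    · unfold Cr; omega
  · rintro x (hx | rfl) hc
    · rw [up x hx]
      have h2 := C.par_mem x hx hc
      rcases hv with hv | hv
      · have := hv x hx; have := hv _ h2; omega
      · have := hv x hx; have := hv _ h2; omega
    · omega

lemma Cat.addLeg {ok V h c par rk t} (C : Cat ok V h false c par rk t) (v : ℕ) (hV0 : ¬ V v)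
    (hv : (∀ x, V x → v < x) ∨ (∀ x, V x → x < v) ∨ v + 1 = h ∨ h + 1 = v)
    (hok : (v < h ∧ ok v h) ∨ (h < v ∧ ok h v)) :
    Cat ok (fun x => V x ∨ x = v) h true c (Function.update par v h)
      (Function.update rk v (rk h + 1)) t := by
  have hV : ∀ x, V x → x ≠ v := fun x hx e => hV0 (e ▸ hx)
  have hh : V h := C.sp_mem h (by simp)
  have hnot : v ∉ h :: t := fun e => hV v (C.sp_mem v e) rfl
  have up : ∀ x, V x → Function.update par v h x = par x := fun x hx =>
    Function.update_of_ne (hV x hx) _ _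
  have ur : ∀ x, V x → Function.update rk v (rk h + 1) x = rk x := fun x hx =>
    Function.update_of_ne (hV x hx) _ _
  have key : ∀ x, V x → x ≠ c → ¬ Cr x (par x) v h ∧ ¬ Cr v h x (par x) := by
    intro x hx hxc
    have h1 := C.unc x hx hxc
    have h2 := C.par_mem x hx hxc
    have h3 := hV x hx
    have h4 := hV _ h2
    unfold Cr
    rcases hv with hv | hv | hv | hv
    · have := hv x hx; have := hv _ h2; have := hv _ hh; omega
    · have := hv x hx; have := hv _ h2; have := hv _ hh; omega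
    · omega
    · omega
  refine ⟨Or.inl C.hc, ?_, ?_, ?_, chain_update hnot C.chain, C.last,
    fun x hx => Or.inl (C.sp_mem x hx), ?_, ?_, by simp, ?_, ?_⟩
  · rintro x (hx | rfl) hc
    · rw [up x hx]; exact Or.inl (C.par_mem x hx hc)
    · simp [hh]
  · rintro x (hx | rfl) hc
    · rw [up x hx, ur x hx, ur _ (C.par_mem x hx hc)]; exact C.rk_lt x hx hc
    · rw [Function.update_self, Function.update_self, ur h hh]; omega
  · rintro x (hx | rfl) hc
    · rw [up x hx]; exact C.ok_e x hx hc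
    · rw [Function.update_self]; exact hok
  · rintro x (hx | rfl) hn
    · rw [up x hx]; exact C.leg_par x hx hn
    · simp
  · rintro x y (hx | rfl) (hy | rfl) hn hm e
    · rw [up x hx, up y hy] at e; exact C.leg_inj x y hx hy hn hm e
    · rw [up x hx, Function.update_self] at e; exact absurd e (C.leg_free rfl x hx hn)
    · rw [up y hy, Function.update_self] at e; exact absurd e.symm (C.leg_free rfl y hy hm)
    · rfl
  · rintro x y (hx | rfl) (hy | rfl) hxc hyc
    · rw [up x hx, up y hy]; exact C.nocross x y hx hy hxc hyc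
    · rw [up x hx, Function.update_self]; exact (key x hx hxc).1
    · rw [up y hy, Function.update_self]; exact (key y hy hyc).2
    · unfold Cr; omega
  · rintro x (hx | rfl) hc
    · rw [up x hx]; exact C.unc x hx hc
    · rw [Function.update_self]; omega

lemma Cat.congr {ok V W h l c par rk t} (C : Cat ok V h l c par rk t) (e : ∀ x, W x ↔ V x) :
    Cat ok W h l c par rk t := by
  have : W = V := funext fun x => propext (e x)
  rw [this]; exact C

lemma Gr.cat {ok a b h l} (G : Gr ok a b h l) :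
    (a ≤ h ∧ h ≤ b) ∧ ∃ c par rk t, Cat ok (fun x => a ≤ x ∧ x ≤ b) h l c par rk t := by
  induction G with
  | start c =>
    refine ⟨⟨le_rfl, le_rfl⟩, c, id, id, [], ⟨le_rfl, le_rfl⟩, ?_, ?_, ?_,
      List.isChain_singleton _, rfl, ?_, ?_, ?_, ?_, ?_, ?_⟩
    all_goals (intros; simp only [List.mem_singleton, id] at *; try omega)
  | @legL a b h _ hok ih =>
    obtain ⟨hh, c, par, rk, t, C⟩ := ih
    exact ⟨by omega, c, _, _, _, (C.addLeg a (by omega) (Or.inl fun x hx => by omega)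
      (Or.inl ⟨by omega, hok⟩)).congr fun x => by omega⟩
  | @legR a b h _ hok ih =>
    obtain ⟨hh, c, par, rk, t, C⟩ := ih
    exact ⟨by omega, c, _, _, _, (C.addLeg (b + 1) (by omega) (Or.inr (Or.inl fun x hx => by omega))
      (Or.inr ⟨by omega, hok⟩)).congr fun x => by omega⟩
  | @spL a b h l _ hok ih =>
    obtain ⟨hh, c, par, rk, t, C⟩ := ih
    exact ⟨by omega, c, _, _, _, (C.addSpine a (Or.inl fun x hx => by omega)
      (Or.inl ⟨by omega, hok⟩)).congr fun x => by omega⟩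
  | @spR a b h l _ hok ih =>
    obtain ⟨hh, c, par, rk, t, C⟩ := ih
    exact ⟨by omega, c, _, _, _, (C.addSpine (b + 1) (Or.inr fun x hx => by omega)
      (Or.inr ⟨by omega, hok⟩)).congr fun x => by omega⟩
  | @byL a b h l _ hok hok' ih =>
    obtain ⟨hh, c, par, rk, t, C⟩ := ih
    exact ⟨by omega, c, _, _, _, ((C.addSpine a (Or.inl fun x hx => by omega)
      (Or.inl ⟨by omega, hok⟩)).addLeg (a + 1) (by omega) (by omega)
      (Or.inr ⟨by omega, hok'⟩)).congr fun x => by omega⟩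
  | @byR a b h l _ hok hok' ih =>
    obtain ⟨hh, c, par, rk, t, C⟩ := ih
    exact ⟨by omega, c, _, _, _, ((C.addSpine (b + 2) (Or.inr fun x hx => by omega)
      (Or.inr ⟨by omega, hok⟩)).addLeg (b + 1) (by omega) (by omega)
      (Or.inl ⟨by omega, hok'⟩)).congr fun x => by omega⟩

end Pool.Agent.P.MP_d44d06_co
end

-- part Pool.Agent.P.MP_d44d06_co.Graph
section

/-! From the growth process to graphs; rotations. -/

namespace Pool.Agent.P.MP_d44d06_co

open SimpleGraph

/-- The graph of a parent function. -/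
def parG (m c : ℕ) (par rk : ℕ → ℕ) (hr : ∀ v, v < m → v ≠ c → rk (par v) < rk v) :
    SimpleGraph (Fin m) where
  Adj x y := (x.1 ≠ c ∧ par x = y) ∨ (y.1 ≠ c ∧ par y = x)
  symm := ⟨fun _ _ h => h.symm⟩
  loopless := ⟨fun x h => by
    have : x.1 ≠ c ∧ par x = x := by tauto
    have h2 := hr x x.2 this.1
    rw [this.2] at h2; omega⟩

section
variable {m c : ℕ} {par rk : ℕ → ℕ} (hr : ∀ v, v < m → v ≠ c → rk (par v) < rk v)

lemma parG_tree (hc : c < m) (hp : ∀ v, v < m → v ≠ c → par v < m) :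
    (parG m c par rk hr).IsTree := by
  refine ⟨?_, ?_⟩
  · have : ∀ k (x : Fin m), rk x = k → (parG m c par rk hr).Reachable x ⟨c, hc⟩ := by
      intro k
      induction k using Nat.strong_induction_on with
      | _ k ih =>
        intro x hx
        by_cases e : x.1 = c
        · have : x = ⟨c, hc⟩ := Fin.ext e
          rw [this]
        · have h1 : (parG m c par rk hr).Adj x ⟨par x, hp x x.2 e⟩ := Or.inl ⟨e, rfl⟩
          exact h1.reachable.trans (ih _ (hx ▸ hr x x.2 e) _ rfl)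
    have hne : Nonempty (Fin m) := ⟨⟨c, hc⟩⟩
    exact ⟨fun x y => (this _ x rfl).trans (this _ y rfl).symm⟩
  · intro v p hp'
    obtain ⟨x, hx, hmax⟩ := p.support.toFinset.exists_max_image (fun y => rk y)
      ⟨v, by simp⟩
    have hx' : x ∈ p.support := by simpa using hx
    have h2 := hp'.ncard_neighborSet_toSubgraph_eq_two hx'
    obtain ⟨y, z, hyz, hs⟩ := Set.ncard_eq_two.1 h2
    have key : ∀ w, w ∈ p.toSubgraph.neighborSet x → par x = w := by
      intro w hw
      have ha : p.toSubgraph.Adj x w := hw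
      have hw' : w ∈ p.support := p.mem_verts_toSubgraph.1 ha.snd_mem
      rcases ha.adj_sub with h | h
      · exact h.2
      · have h3 := hr w w.2 h.1
        have h4 := hmax w (by simpa using hw')
        rw [h.2] at h3
        exact absurd h4 (by simpa using h3)
    have e1 := key y (by rw [hs]; simp)
    have e2 := key z (by rw [hs]; simp)
    exact hyz (Fin.ext (e1.symm.trans e2))

lemma parG_walk (hc : c < m) : ∀ (t : List ℕ) (x : ℕ) (hx : x < m), (∀ y ∈ x :: t, y < m) →
    (x :: t).IsChain (fun x y => x ≠ c ∧ par x = y) →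
    (x :: t).getLast (List.cons_ne_nil _ _) = c →
    ∃ p : (parG m c par rk hr).Walk ⟨x, hx⟩ ⟨c, hc⟩, p.IsPath ∧
      (∀ y : Fin m, y ∈ p.support ↔ y.1 ∈ x :: t) ∧ (∀ y ∈ t, rk y < rk x) ∧
      ∀ y z : Fin m, y.1 ∈ x :: t → y.1 ≠ c → par y = z → s(y, z) ∈ p.edges := by
  intro t
  induction t with
  | nil =>
    intro x hx _ _ hl
    have e : x = c := hl
    subst e
    refine ⟨Walk.nil, Walk.IsPath.nil, fun y => ?_, by simp, fun y z h1 h2 => ?_⟩
    · simp [Fin.ext_iff]
    · simp at h1; exact absurd h1 h2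
  | cons a t ih =>
    intro x hx hm hch hl
    rw [List.isChain_cons_cons] at hch
    have ha : a < m := hm a (by simp)
    obtain ⟨p, h1, h2, h3, h4⟩ := ih a ha (fun y hy => hm y (List.mem_cons_of_mem _ hy)) hch.2
      (by rw [List.getLast_cons (List.cons_ne_nil _ _)] at hl; exact hl)
    have hadj : (parG m c par rk hr).Adj ⟨x, hx⟩ ⟨a, ha⟩ := Or.inl hch.1
    have hlt : ∀ y ∈ a :: t, rk y < rk x := by
      have := hr x hx hch.1.1
      rw [hch.1.2] at this
      intro y hy
      rcases List.mem_cons.1 hy with rfl | hy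
      · exact this
      · exact (h3 y hy).trans this
    refine ⟨Walk.cons hadj p, ?_, fun y => ?_, hlt, fun y z hy hyc e => ?_⟩
    · rw [Walk.cons_isPath_iff]
      exact ⟨h1, fun e => absurd (hlt x ((h2 _).1 e)) (lt_irrefl _)⟩
    · rw [Walk.support_cons, List.mem_cons, h2, List.mem_cons (a := y.1) (b := x), Fin.ext_iff]
    · rw [Walk.edges_cons, List.mem_cons]
      rcases List.mem_cons.1 hy with e' | hy
      · left
        have e1 : y = ⟨x, hx⟩ := Fin.ext e'
        have e2 : z = ⟨a, ha⟩ := Fin.ext (by rw [← e, e']; exact hch.1.2)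
        rw [e1, e2]
      · exact Or.inr (h4 y z hy hyc e)
end

theorem Gr.sound {ok : ℕ → ℕ → Prop} {m h : ℕ} {l : Bool} (hm : 0 < m) (G : Gr ok 0 (m - 1) h l) :
    ∃ D : SimpleGraph (Fin m), IsOneLegged D ∧ Plane D ∧
      ∀ x y : Fin m, D.Adj x y → x < y → ok x y := by
  obtain ⟨hh, c, par, rk, t, C0⟩ := G.cat
  have C : Cat ok (fun x => x < m) h l c par rk t := C0.congr fun x => by omega
  obtain ⟨p, h1, h2, -, h4⟩ := parG_walk C.rk_lt C.hc t h (by omega) C.sp_mem C.chain C.last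
  have hcm : c ∈ h :: t := C.last ▸ List.getLast_mem _
  refine ⟨parG m c par rk C.rk_lt, ⟨parG_tree _ C.hc C.par_mem, _, _, p, h1, ?_, ?_⟩, ?_, ?_⟩
  · intro x y hxy he
    rw [h2, h2]
    rcases hxy with hxy | hxy
    · have : x.1 ∉ h :: t := fun e => he (h4 x y e hxy.1 hxy.2)
      have h5 := C.leg_par x x.2 this
      rw [hxy.2] at h5
      tauto
    · have : y.1 ∉ h :: t := fun e => he (Sym2.eq_swap ▸ h4 y x e hxy.1 hxy.2)
      have h5 := C.leg_par y y.2 this
      rw [hxy.2] at h5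
      tauto
  · intro x hx y z hy hz ey ez
    rw [h2] at hx
    have key : ∀ w : Fin m, (parG m c par rk C.rk_lt).Adj x w → s(x, w) ∉ p.edges →
        w.1 ∉ h :: t ∧ par w = x := by
      intro w hw ew
      rcases hw with hw | hw
      · exact absurd (h4 x w hx hw.1 hw.2) ew
      · exact ⟨fun e => ew (Sym2.eq_swap ▸ h4 w x e hw.1 hw.2), hw.2⟩
    obtain ⟨a1, a2⟩ := key y hy ey
    obtain ⟨a3, a4⟩ := key z hz ez
    exact Fin.ext (C.leg_inj y z y.2 z.2 a1 a3 (a2.trans a4.symm))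
  · rintro a b c' d hab hcd ⟨e1, e2, e3⟩
    rw [Fin.lt_def] at e1 e2 e3
    rcases hab with hab | hab <;> rcases hcd with hcd | hcd <;>
    · refine C.nocross _ _ (Fin.is_lt _) (Fin.is_lt _) hab.1 hcd.1 ?_
      rw [hab.2, hcd.2]; unfold Cr; omega
  · intro x y hxy hlt
    rw [Fin.lt_def] at hlt
    rcases hxy with hxy | hxy
    · have := C.ok_e x x.2 hxy.1
      rw [hxy.2] at this
      exact (this.resolve_right (by omega)).2
    · have := C.ok_e y y.2 hxy.1
      rw [hxy.2] at this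
      exact (this.resolve_left (by omega)).2

/-- A plane perfect matching given by the partner function. -/
structure PM (m : ℕ) (f : ℕ → ℕ) : Prop where
  lt : ∀ i, i < m → f i < m
  inv : ∀ i, i < m → f (f i) = i
  ne : ∀ i, i < m → f i ≠ i
  nc : ∀ i j, i < m → j < m → ¬ (i < j ∧ j < f i ∧ f i < f j)

/-- The chord `u v` is no edge of the matching and is not crossed by it. -/
def OK (f : ℕ → ℕ) (u v : ℕ) : Prop := f u ≠ v ∧ ∀ i, u < i → i < v → u ≤ f i ∧ f i ≤ v

def OK2 (f g : ℕ → ℕ) (u v : ℕ) : Prop := OK f u v ∧ OK g u v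

def toG (m : ℕ) (f : ℕ → ℕ) : SimpleGraph (Fin m) := SimpleGraph.fromRel fun x y => f x = y

lemma PM.adj {m f} (h : PM m f) (x y : Fin m) : (toG m f).Adj x y ↔ f x = y := by
  rw [toG, fromRel_adj]
  constructor
  · rintro ⟨-, e | e⟩
    · exact e
    · rw [← e]; exact h.inv y y.2
  · intro e
    refine ⟨fun e' => h.ne x x.2 (by rw [e, e']), Or.inl e⟩

lemma PM.plane {m f} (h : PM m f) : Plane (toG m f) := by
  rintro a b c d hab hcd ⟨e1, e2, e3⟩
  rw [h.adj] at hab hcd
  rw [Fin.lt_def] at e1 e2 e3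
  exact h.nc a c a.2 c.2 (by omega)

lemma PM.matching {m f} (h : PM m f) : IsPlaneMatching (toG m f) :=
  ⟨h.plane, fun v => ⟨⟨f v, h.lt v v.2⟩, (h.adj _ _).2 rfl, fun _ hw =>
    Fin.ext ((h.adj _ _).1 hw).symm⟩⟩

lemma exists_PM {m} {M : SimpleGraph (Fin m)} (h : IsPlaneMatching M) :
    ∃ f, PM m f ∧ toG m f = M := by
  choose g hg hu using h.2
  let f : ℕ → ℕ := fun i => if hi : i < m then (g ⟨i, hi⟩).1 else 0
  have hf : ∀ x : Fin m, f x = g x := fun x => by simp [f]
  have hf' : ∀ i (hi : i < m), f i = g ⟨i, hi⟩ := fun i hi => hf ⟨i, hi⟩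
  have P : PM m f := by
    refine ⟨fun i hi => ?_, fun i hi => ?_, fun i hi e => ?_, fun i j hi hj e => ?_⟩
    · rw [hf' i hi]; exact Fin.is_lt _
    · rw [hf' i hi, hf, ← hu _ _ (hg ⟨i, hi⟩).symm]
    · rw [hf' i hi] at e
      exact (hg ⟨i, hi⟩).ne (Fin.ext e.symm)
    · rw [hf' i hi, hf' j hj] at e
      exact h.1 _ _ _ _ (hg ⟨i, hi⟩) (hg ⟨j, hj⟩) e
  refine ⟨f, P, ?_⟩
  ext x y
  rw [P.adj, hf]
  exact ⟨fun e => (Fin.ext e : g x = y) ▸ hg x, fun e => by rw [← hu x y e]⟩

lemma compat_of_ok {m f} (h : PM m f) {D : SimpleGraph (Fin m)} (hD : Plane D)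
    (hok : ∀ x y : Fin m, D.Adj x y → x < y → OK f x y) : DisjointCompatible D (toG m f) := by
  refine ⟨?_, fun a b hab e => ?_⟩
  · rintro a b c d hab hcd ⟨e1, e2, e3⟩
    rcases hab with hab | hab <;> rcases hcd with hcd | hcd
    · exact hD a b c d hab hcd ⟨e1, e2, e3⟩
    · have := (hok a b hab (e1.trans e2)).2 c e1 e2
      rw [(h.adj _ _).1 hcd] at this
      exact absurd e3 (by rw [Fin.lt_def]; omega)
    · have := (hok c d hcd (e2.trans e3)).2 b e2 e3
      rw [(h.adj _ _).1 hab.symm] at this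
      exact absurd e1 (by rw [Fin.lt_def]; omega)
    · exact h.plane a b c d hab hcd ⟨e1, e2, e3⟩
  · rcases lt_trichotomy a b with hl | hl | hl
    · exact (hok a b hab hl).1 ((h.adj _ _).1 e)
    · exact hab.ne hl
    · exact (hok b a hab.symm hl).1 ((h.adj _ _).1 e.symm)

/-- Some one-legged plane caterpillar is disjoint compatible with both matchings. -/
def Near (m : ℕ) (f g : ℕ → ℕ) : Prop :=
  ∃ D : SimpleGraph (Fin m), IsOneLegged D ∧ Plane D ∧ DisjointCompatible D (toG m f) ∧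
    DisjointCompatible D (toG m g)

lemma Gr.near {m f g h l} (hm : 0 < m) (hf : PM m f) (hg : PM m g)
    (G : Gr (OK2 f g) 0 (m - 1) h l) : Near m f g := by
  obtain ⟨D, h1, h2, h3⟩ := G.sound hm
  exact ⟨D, h1, h2, compat_of_ok hf h2 fun x y e e' => (h3 x y e e').1,
    compat_of_ok hg h2 fun x y e e' => (h3 x y e e').2⟩

lemma Near.symm {m f g} (h : Near m f g) : Near m g f :=
  let ⟨D, h1, h2, h3, h4⟩ := h; ⟨D, h1, h2, h4, h3⟩

lemma toG_congr {m f g} (h : ∀ i, i < m → f i = g i) : toG m f = toG m g := by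
  unfold toG; congr 1; ext x y; rw [h x x.2]

/-- Rotation of the labels. -/
def sh (m r i : ℕ) : ℕ := if i + r < m then i + r else i + r - m

/-- The matching seen from the point `r`. -/
def rot (m r : ℕ) (f : ℕ → ℕ) (i : ℕ) : ℕ := sh m (m - r) (f (sh m r i))

lemma sh_lt {m r i} (hr : r ≤ m) (hi : i < m) : sh m r i < m := by unfold sh; split_ifs <;> omega

lemma sh_sh {m r i} (hr : r ≤ m) (hi : i < m) : sh m r (sh m (m - r) i) = i := by
  unfold sh; split_ifs <;> omega

lemma sh_sh' {m r i} (hr : r ≤ m) (hi : i < m) : sh m (m - r) (sh m r i) = i := by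
  unfold sh; split_ifs <;> omega

lemma PM.rot {m f r} (h : PM m f) (hr : r ≤ m) : PM m (rot m r f) := by
  refine ⟨fun i hi => sh_lt (by omega) (h.lt _ (sh_lt hr hi)), fun i hi => ?_, fun i hi e => ?_,
    fun i j hi hj e => ?_⟩
  · unfold MP_d44d06_co.rot
    rw [sh_sh hr (h.lt _ (sh_lt hr hi)), h.inv _ (sh_lt hr hi), sh_sh' hr hi]
  · unfold MP_d44d06_co.rot at e
    have := congrArg (sh m r) e
    rw [sh_sh hr (h.lt _ (sh_lt hr hi))] at this
    exact h.ne _ (sh_lt hr hi) this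
  · unfold MP_d44d06_co.rot at e
    have a1 := sh_lt hr hi
    have a2 := sh_lt hr hj
    have b1 := h.lt _ a1
    have b2 := h.lt _ a2
    have c1 := h.nc _ _ a1 a2
    have c2 := h.nc _ _ a2 b1
    have c3 := h.nc _ _ b1 b2
    have c4 := h.nc _ _ b2 a1
    rw [h.inv _ a1] at c2 c3
    rw [h.inv _ a2] at c3 c4
    generalize f (sh m r i) = x at *
    generalize f (sh m r j) = y at *
    unfold sh at *
    split_ifs at * <;> omega

def shE (m r : ℕ) (hr : r ≤ m) : Fin m ≃ Fin m where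
  toFun x := ⟨sh m r x, sh_lt hr x.2⟩
  invFun x := ⟨sh m (m - r) x, sh_lt (by omega) x.2⟩
  left_inv x := Fin.ext (sh_sh' hr x.2)
  right_inv x := Fin.ext (sh_sh hr x.2)

lemma Plane.comap_sh {m r} (hr : r ≤ m) {G : SimpleGraph (Fin m)} (h : Plane G) :
    Plane (G.comap (shE m r hr).symm) := by
  rintro a b c d hab hcd ⟨e1, e2, e3⟩
  have c1 := h _ _ _ _ hab hcd
  have c2 := h _ _ _ _ hcd hab.symm
  have c3 := h _ _ _ _ hab.symm hcd.symm
  have c4 := h _ _ _ _ hcd.symm hab
  have := a.2; have := b.2; have := c.2; have := d.2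
  simp only [Fin.lt_def, shE, Equiv.coe_fn_symm_mk, sh] at *
  split_ifs at * <;> omega

lemma IsOneLegged.comap {m} (σ : Fin m ≃ Fin m) {D : SimpleGraph (Fin m)} (h : IsOneLegged D) :
    IsOneLegged (D.comap σ.symm) := by
  obtain ⟨h0, u, v, p, h1, h2, h3⟩ := h
  let φ : D ≃g D.comap σ.symm := (Iso.comap σ.symm D).symm
  have hφ : ∀ x, φ x = σ x := fun x => rfl
  have hs : ∀ x, x ∈ (p.map φ.toHom).support ↔ σ.symm x ∈ p.support := by
    intro x
    rw [Walk.support_map, List.mem_map]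
    constructor
    · rintro ⟨y, hy, rfl⟩
      have : σ.symm (φ.toHom y) = y := σ.symm_apply_apply y
      rwa [this]
    · intro hx; exact ⟨_, hx, σ.apply_symm_apply x⟩
  have he : ∀ x y, s(σ.symm x, σ.symm y) ∈ p.edges → s(x, y) ∈ (p.map φ.toHom).edges := by
    intro x y hxy
    rw [Walk.edges_map, List.mem_map]
    refine ⟨_, hxy, ?_⟩
    rw [Sym2.map_mk]
    have a1 : φ.toHom (σ.symm x) = x := σ.apply_symm_apply x
    have a2 : φ.toHom (σ.symm y) = y := σ.apply_symm_apply y
    rw [a1, a2]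
  refine ⟨φ.isTree_iff.1 h0, _, _, p.map φ.toHom,
    h1.map φ.injective, fun x y hxy hn => ?_,
    fun x hx y z hy hz ey ez => ?_⟩
  · rw [hs, hs]; exact h2 _ _ hxy fun e => hn (he x y e)
  · exact σ.symm.injective (h3 _ ((hs x).1 hx) _ _ hy hz (fun e => ey (he _ _ e))
      fun e => ez (he _ _ e))

lemma toG_rot {m f r} (h : PM m f) (hr : r ≤ m) :
    (toG m (rot m r f)).comap (shE m r hr).symm = toG m f := by
  ext x y
  rw [comap_adj, (h.rot hr).adj, h.adj]
  change sh m (m - r) (f (sh m r (sh m (m - r) x))) = sh m (m - r) y ↔ _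
  rw [sh_sh hr x.2]
  refine ⟨fun e => ?_, fun e => by rw [e]⟩
  have := congrArg (sh m r) e
  rwa [sh_sh hr (h.lt _ x.2), sh_sh hr y.2] at this

lemma DisjointCompatible.comap_sh {m r} (hr : r ≤ m) {G H : SimpleGraph (Fin m)}
    (h : DisjointCompatible G H) :
    DisjointCompatible (G.comap (shE m r hr).symm) (H.comap (shE m r hr).symm) :=
  ⟨h.1.comap_sh hr, fun _ _ e => h.2 _ _ e⟩

lemma Near.of_rot {m f g r} (hf : PM m f) (hg : PM m g) (hr : r ≤ m)
    (h : Near m (rot m r f) (rot m r g)) : Near m f g := by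
  obtain ⟨D, h1, h2, h3, h4⟩ := h
  refine ⟨D.comap (shE m r hr).symm, h1.comap _, h2.comap_sh hr, ?_, ?_⟩
  · rw [← toG_rot hf hr]; exact h3.comap_sh hr
  · rw [← toG_rot hg hr]; exact h4.comap_sh hr

end Pool.Agent.P.MP_d44d06_co
end

-- part Pool.Agent.P.MP_d44d06_co.Moves
section

/-! Basic moves between matchings. -/

namespace Pool.Agent.P.MP_d44d06_co

inductive Reach (m : ℕ) : ℕ → (ℕ → ℕ) → (ℕ → ℕ) → Prop
  | refl {k f g} : (∀ i, i < m → f i = g i) → Reach m k f g
  | step {k f h g} : PM m h → Near m f h → Reach m k h g → Reach m (k + 1) f g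

lemma Near.congr {m f g f' g'} (h : Near m f g) (e : ∀ i, i < m → f' i = f i)
    (e' : ∀ i, i < m → g' i = g i) : Near m f' g' := by
  unfold Near at *
  rw [toG_congr e, toG_congr e']; exact h

lemma Reach.congr {m k f g f' g'} (h : Reach m k f g) (e : ∀ i, i < m → f' i = f i)
    (e' : ∀ i, i < m → g' i = g i) : Reach m k f' g' := by
  induction h generalizing f' with
  | refl h => exact .refl fun i hi => by rw [e i hi, e' i hi, h i hi]
  | step h1 h2 _ ih => exact .step h1 (h2.congr e fun _ _ => rfl) (ih (fun _ _ => rfl) e')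

lemma Reach.mono {m k f g} (h : Reach m k f g) : ∀ k', k ≤ k' → Reach m k' f g := by
  induction h with
  | refl h => exact fun _ _ => .refl h
  | step h1 h2 _ ih =>
    intro k' hk
    obtain ⟨j, rfl⟩ : ∃ j, k' = j + 1 := ⟨k' - 1, by omega⟩
    exact .step h1 h2 (ih j (by omega))

lemma Reach.trans {m k f g} (h : Reach m k f g) : ∀ {k' e}, Reach m k' g e →
    Reach m (k + k') f e := by
  induction h with
  | refl h => exact fun h' => (h'.congr h fun _ _ => rfl).mono _ (by omega)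
  | @step k f h g h1 h2 _ ih =>
    intro k' e h'
    rw [show k + 1 + k' = (k + k') + 1 by omega]
    exact .step h1 h2 (ih h')

lemma Near.reach {m f g} (hg : PM m g) (h : Near m f g) : Reach m 1 f g :=
  .step hg h (.refl fun _ _ => rfl)

lemma rot_rot {m r h} (hh : PM m h) (hr : r ≤ m) (i : ℕ) (hi : i < m) :
    rot m r (rot m (m - r) h) i = h i := by
  unfold rot
  rw [sh_sh' hr hi, show m - (m - r) = r by omega, sh_sh' hr (hh.lt i hi)]

lemma Reach.of_rot {m r k} (hr : r ≤ m) : ∀ {f g}, PM m f → PM m g →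
    Reach m k (rot m r f) (rot m r g) → Reach m k f g := by
  induction k with
  | zero =>
    intro f g hf hg h
    cases h with
    | refl h =>
      refine .refl fun i hi => ?_
      have := congrArg (sh m r) (h _ (sh_lt (Nat.sub_le m r) hi))
      unfold rot at this
      rwa [sh_sh hr hi, sh_sh hr (hf.lt i hi), sh_sh hr (hg.lt i hi)] at this
  | succ k ih =>
    intro f g hf hg h
    cases h with
    | refl h =>
      refine .refl fun i hi => ?_
      have := congrArg (sh m r) (h _ (sh_lt (Nat.sub_le m r) hi))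
      unfold rot at this
      rwa [sh_sh hr hi, sh_sh hr (hf.lt i hi), sh_sh hr (hg.lt i hi)] at this
    | step h1 h2 h3 =>
      have p := h1.rot (Nat.sub_le m r)
      exact .step p (Near.of_rot hf p hr (h2.congr (fun _ _ => rfl) (rot_rot h1 hr)))
        (ih p hg (h3.congr (rot_rot h1 hr) fun _ _ => rfl))

lemma rot_eq_iff {m r f i j} (hf : PM m f) (hr : r ≤ m) (hi : i < m) (hj : j < m) :
    rot m r f i = j ↔ f (sh m r i) = sh m r j := by
  unfold rot
  constructor
  · intro e; rw [← e, sh_sh hr (hf.lt _ (sh_lt hr hi))]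
  · intro e; rw [e, sh_sh' hr hj]

lemma PM.symm {m f i j} (h : PM m f) (hi : i < m) (e : f i = j) : f j = i := by
  rw [← e]; exact h.inv i hi

lemma PM.inj {m f i j} (h : PM m f) (hi : i < m) (hj : j < m) (e : f i = f j) : i = j := by
  rw [← h.inv i hi, e, h.inv j hj]

/-- The points under an edge are matched under it. -/
lemma PM.under {m f x y} (h : PM m f) (hx : x < m) (e : f x = y) (i : ℕ) (h1 : x < i)
    (h2 : i < y) : x < f i ∧ f i < y := by
  have hy : y < m := e ▸ h.lt x hx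
  have hi : i < m := by omega
  have a1 := h.nc x i hx hi
  have a2 := h.nc (f i) x (h.lt i hi) hx
  rw [h.inv i hi] at a2
  have a3 : f i ≠ x := fun e' => by have := h.symm hi e'; omega
  have a4 : f i ≠ y := fun e' => by have := h.symm hi e'; have := h.symm hx e; omega
  omega

def Frozen (f g : ℕ → ℕ) (x y : ℕ) : Prop := ∀ i, x ≤ i → i + 1 ≤ y → (f i = i + 1 ↔ g i = i + 1)

lemma ok_arc {f g : ℕ → ℕ} {x} (h1 : f x ≠ x + 1) (h2 : g x ≠ x + 1) : OK2 f g x (x + 1) :=
  ⟨⟨h1, fun i _ _ => by omega⟩, h2, fun i _ _ => by omega⟩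

lemma ok_two_r {m f x} (hf : PM m f) (hx : x + 2 < m) (h : f (x + 1) = x + 2) : OK f x (x + 2) := by
  refine ⟨fun e => ?_, fun i h1 h2 => ?_⟩
  · have := hf.inj (by omega) (by omega) (e.trans h.symm); omega
  · obtain rfl : i = x + 1 := by omega
    omega

lemma ok_two_l {m f x} (hf : PM m f) (hx : x + 2 < m) (h : f x = x + 1) : OK f x (x + 2) := by
  refine ⟨by omega, fun i h1 h2 => ?_⟩
  obtain rfl : i = x + 1 := by omega
  have := hf.symm (by omega) h
  omega

lemma stretchR0 {m f g a y} (hf : PM m f) (hg : PM m g) (hy : y < m) : ∀ d x, x + d = y →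
    Frozen f g x y → (x = y ∨ f x ≠ x + 1) → Gr (OK2 f g) a x x false →
    Gr (OK2 f g) a y y false := by
  intro d
  induction d using Nat.strong_induction_on with
  | _ d ih =>
    intro x hd hz he G
    by_cases e : x = y
    · exact e ▸ G
    have h1 : f x ≠ x + 1 := he.resolve_left e
    have h2 : g x ≠ x + 1 := fun e' => h1 ((hz x le_rfl (by omega)).2 e')
    by_cases e2 : f (x + 1) = x + 2 ∧ x + 2 ≤ y
    · have e3 : g (x + 1) = x + 2 := (hz (x + 1) (by omega) e2.2).1 e2.1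
      have := hf.symm (by omega) e2.1
      exact ih (d - 2) (by omega) (x + 2) (by omega) (fun i h3 h4 => hz i (by omega) h4)
        (Or.inr (by omega)) ((G.legR (ok_arc h1 h2)).spR
          ⟨ok_two_r hf (by omega) e2.1, ok_two_r hg (by omega) e3⟩)
    · exact ih (d - 1) (by omega) (x + 1) (by omega) (fun i h3 h4 => hz i (by omega) h4)
        (by omega) (G.spR (ok_arc h1 h2))

lemma stretchL0 {m f g b y} (hf : PM m f) (hg : PM m g) : ∀ d x, y + d = x → x < m →
    Frozen f g y x → (x = y ∨ f (x - 1) ≠ x) → Gr (OK2 f g) x b x false →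
    Gr (OK2 f g) y b y false := by
  intro d
  induction d using Nat.strong_induction_on with
  | _ d ih =>
    intro x hd hx hz he G
    by_cases e : x = y
    · exact e ▸ G
    obtain ⟨z, rfl⟩ : ∃ z, x = z + 1 := ⟨x - 1, by omega⟩
    have h1 : f z ≠ z + 1 := he.resolve_left e
    have h2 : g z ≠ z + 1 := fun e' => h1 ((hz z (by omega) le_rfl).2 e')
    by_cases e2 : y + 1 ≤ z ∧ f (z - 1) = z
    · obtain ⟨w, rfl⟩ : ∃ w, z = w + 1 := ⟨z - 1, by omega⟩
      have e1 : f w = w + 1 := e2.2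
      have e3 : g w = w + 1 := (hz w (by omega) (by omega)).1 e1
      refine ih (d - 2) (by omega) w (by omega) (by omega) (fun i h3 h4 => hz i h3 (by omega))
        ?_ ((G.legL (ok_arc h1 h2)).spL ⟨ok_two_l hf (by omega) e1, ok_two_l hg (by omega) e3⟩)
      by_cases e4 : w = y
      · exact Or.inl e4
      · refine Or.inr fun e5 => ?_
        have := hf.symm (by omega) e5
        omega
    · exact ih (d - 1) (by omega) z (by omega) (by omega) (fun i h3 h4 => hz i h3 (by omega))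
        (by omega) (G.spL (ok_arc h1 h2))

lemma stretchR {m f g a y} (hf : PM m f) (hg : PM m g) (hy : y < m) (he : f (y - 1) ≠ y) :
    ∀ d x l, x + d = y → Frozen f g x y → Gr (OK2 f g) a x x l →
    ∃ l', Gr (OK2 f g) a y y l' := by
  intro d
  induction d using Nat.strong_induction_on with
  | _ d ih =>
    intro x l hd hz G
    by_cases e : x = y
    · exact ⟨l, e ▸ G⟩
    by_cases h1 : f x = x + 1
    · have h2 : g x = x + 1 := (hz x le_rfl (by omega)).1 h1
      have h3 : x + 1 ≠ y := fun e' => he (by rw [← e']; exact h1)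
      have a1 := hf.symm (by omega) h1
      have a2 := hg.symm (by omega) h2
      exact ih (d - 2) (by omega) (x + 2) _ (by omega) (fun i h3 h4 => hz i (by omega) h4)
        (G.byR ⟨ok_two_l hf (by omega) h1, ok_two_l hg (by omega) h2⟩
          (ok_arc (x := x + 1) (by omega) (by omega)))
    · have h2 : g x ≠ x + 1 := fun e' => h1 ((hz x le_rfl (by omega)).2 e')
      exact ih (d - 1) (by omega) (x + 1) _ (by omega) (fun i h3 h4 => hz i (by omega) h4)
        (G.spR (ok_arc h1 h2))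

/-- Matchings with the same perimeter edges, up to the last one, are adjacent. -/
lemma near_same {m f g} (hm : 0 < m) (hf : PM m f) (hg : PM m g) (hz : Frozen f g 0 (m - 1))
    (h0 : f 0 ≠ 1) : Near m f g :=
  (stretchR0 hf hg (by omega) (m - 1) 0 (by omega) hz (Or.inr h0) (.start 0)).near hm hf hg

lemma near_gap {m f g p} (hm : 2 < m) (hf : PM m f) (hg : PM m g) (f0 : f 0 = m - 1)
    (g0 : g 0 = m - 1) (hp : p + 1 < m) (gp : g p = p + 1)
    (hz : ∀ i, i ≠ p → i + 1 < m → (f i = i + 1 ↔ g i = i + 1)) : Near m f g := by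
  have hr : p + 1 ≤ m := by omega
  refine Near.of_rot hf hg hr (near_same (by omega) (hg.rot hr) (hf.rot hr) ?_ ?_).symm
  · intro i _ hi
    rw [rot_eq_iff hf hr (by omega) (by omega), rot_eq_iff hg hr (by omega) (by omega)]
    by_cases e : i + (p + 1) + 1 = m
    · have e1 : sh m (p + 1) i = m - 1 := by unfold sh; split_ifs <;> omega
      have e2 : sh m (p + 1) (i + 1) = 0 := by unfold sh; split_ifs <;> omega
      rw [e1, e2, hf.symm (by omega) f0, hg.symm (by omega) g0]
    · have e2 : sh m (p + 1) (i + 1) = sh m (p + 1) i + 1 := by unfold sh; split_ifs <;> omega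
      have e3 := sh_lt (i := i + 1) hr (by omega)
      rw [e2]
      exact (hz _ (by unfold sh; split_ifs <;> omega) (by omega)).symm
  · intro e
    rw [rot_eq_iff hg hr (by omega) (by omega)] at e
    have e1 : sh m (p + 1) 0 = p + 1 := by unfold sh; split_ifs <;> omega
    rw [e1, hg.symm (by omega) gp] at e
    unfold sh at e; split_ifs at e <;> omega

/-- Replacing a matching on a closed interval. -/
lemma PM.patch {m f x y} (hf : PM m f) (hy : y < m) (φ : ℕ → ℕ)
    (hc : ∀ i, x ≤ i → i ≤ y → x ≤ f i ∧ f i ≤ y)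
    (h1 : ∀ i, x ≤ i → i ≤ y → (x ≤ φ i ∧ φ i ≤ y) ∧ φ (φ i) = i ∧ φ i ≠ i)
    (h2 : ∀ i j, x ≤ i → j ≤ y → ¬ (i < j ∧ j < φ i ∧ φ i < φ j)) :
    PM m (fun j => if x ≤ j ∧ j ≤ y then φ j else f j) := by
  have out : ∀ i, i < m → ¬ (x ≤ i ∧ i ≤ y) → ¬ (x ≤ f i ∧ f i ≤ y) := fun i hi h h' => by
    have := hc _ h'.1 h'.2
    rw [hf.inv i hi] at this; exact h this
  refine ⟨fun i hi => ?_, fun i hi => ?_, fun i hi => ?_, fun i j hi hj => ?_⟩
  · split_ifs with h
    · have := h1 i h.1 h.2; omega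
    · exact hf.lt i hi
  · by_cases h : x ≤ i ∧ i ≤ y
    · have := h1 i h.1 h.2
      simp only [if_pos h, if_pos this.1]; exact this.2.1
    · simp only [if_neg h, if_neg (out i hi h)]; exact hf.inv i hi
  · split_ifs with h
    · exact (h1 i h.1 h.2).2.2
    · exact hf.ne i hi
  · split_ifs with h h' h'
    · exact h2 i j h.1 h'.2
    · have := h1 i h.1 h.2; omega
    · have := h1 j h'.1 h'.2; have := out i hi h; omega
    · exact hf.nc i j hi hj

lemma Gr.congr {f f' g : ℕ → ℕ} {a b h l} (G : Gr (OK2 f g) a b h l)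
    (e : ∀ i, a ≤ i → i ≤ b → f' i = f i) : Gr (OK2 f' g) a b h l := by
  have key : ∀ a b u v, (∀ i, a ≤ i → i ≤ b → f' i = f i) → a ≤ u → u ≤ b → v ≤ b →
      OK2 f g u v → OK2 f' g u v := fun a b u v e h1 h2 h3 h =>
    ⟨⟨by rw [e u h1 h2]; exact h.1.1, fun i h4 h5 => by
      rw [e i (by omega) (by omega)]; exact h.1.2 i h4 h5⟩, h.2⟩
  induction G with
  | start c => exact .start c
  | legL G hok ih =>
    have := G.cat.1
    exact .legL (ih fun i h1 h2 => e i (by omega) h2) (key _ _ _ _ e le_rfl (by omega) (by omega) hok)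
  | legR G hok ih =>
    have := G.cat.1
    exact .legR (ih fun i h1 h2 => e i h1 (by omega)) (key _ _ _ _ e (by omega) (by omega) le_rfl hok)
  | spL G hok ih =>
    have := G.cat.1
    exact .spL (ih fun i h1 h2 => e i (by omega) h2) (key _ _ _ _ e le_rfl (by omega) (by omega) hok)
  | spR G hok ih =>
    have := G.cat.1
    exact .spR (ih fun i h1 h2 => e i h1 (by omega)) (key _ _ _ _ e (by omega) (by omega) le_rfl hok)
  | byL G hok hok' ih =>
    have := G.cat.1
    exact .byL (ih fun i h1 h2 => e i (by omega) h2) (key _ _ _ _ e le_rfl (by omega) (by omega) hok)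
      (key _ _ _ _ e le_rfl (by omega) (by omega) hok')
  | byR G hok hok' ih =>
    have := G.cat.1
    exact .byR (ih fun i h1 h2 => e i h1 (by omega)) (key _ _ _ _ e (by omega) (by omega) le_rfl hok)
      (key _ _ _ _ e (by omega) (by omega) le_rfl hok')

/-- One level of the ladder move. -/
lemma ladder_step {m f h x R L' R' l} (hf : PM m f) (hh : PM m h) (hR : R' < m)
    (h1 : L' + 1 ≤ x) (h2 : R + 2 ≤ R') (h3 : x + 1 < R) (f1 : f (x + 1) = R) (f2 : f x = R + 1)
    (g1 : h x = x + 1) (g2 : h R = R + 1) (f3 : f L' = R') (g3 : h L' ≠ L' + 1)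
    (gl : ∀ j, L' < j → j < x → h j = f j ∧ L' < f j ∧ f j < x)
    (gr : ∀ j, R + 1 < j → j < R' → h j = f j)
    (ci : ∀ j, x + 1 < j → j < R → x + 1 < h j ∧ h j < R)
    (G : Gr (OK2 f h) (x + 1) R R l) : Gr (OK2 f h) L' R' R' false := by
  have s1 := hf.symm (by omega) f2
  have s2 := hh.symm (by omega) g1
  have s3 := hh.symm (by omega) g2
  have s4 := hf.symm (by omega) f1
  have u := hf.under (by omega) f1
  have G1 : Gr (OK2 f h) x R x false := by
    refine G.spL ⟨⟨by omega, fun i a1 a2 => ?_⟩, by omega, fun i a1 a2 => ?_⟩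
    · by_cases e : i = x + 1
      · rw [e]; omega
      · have := u i (by omega) a2; omega
    · by_cases e : i = x + 1
      · rw [e]; omega
      · have := ci i (by omega) a2; omega
  have G2 : Gr (OK2 f h) L' R L' false := by
    refine stretchL0 hf hh (x - L') x (by omega) (by omega) (fun i a1 a2 => ?_)
      (Or.inr fun e => ?_) G1
    · by_cases e : i = L'
      · rw [e]; omega
      · rw [(gl i (by omega) (by omega)).1]
    · have := hf.symm (by omega) e; omega
  have G3 : Gr (OK2 f h) L' (R + 1) (R + 1) false := by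
    refine G2.spR ⟨⟨by omega, fun i a1 a2 => ?_⟩, fun e => ?_, fun i a1 a2 => ?_⟩
    · have := hf.under (by omega) f2 i
      have := gl i a1
      by_cases e : i = x
      · rw [e]; omega
      · omega
    · have := hh.symm (by omega) e; omega
    · have := gl i a1
      have := ci i
      by_cases e : i = x
      · rw [e]; omega
      by_cases e' : i = x + 1
      · rw [e']; omega
      by_cases e'' : i = R
      · rw [e'']; omega
      · omega
  refine stretchR0 hf hh hR (R' - (R + 1)) (R + 1) (by omega) (fun i a1 a2 => ?_)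
    (Or.inr (by omega)) G3
  by_cases e : i = R + 1
  · rw [e]; omega
  · rw [gr i (by omega) (by omega)]

/-- Removing a block in two moves. -/
lemma remove_block {m f} (hm : 12 ≤ m) (hf : PM m f) (f0 : f 0 = m - 1) (f1 : f 1 = 2)
    (f3 : f 3 = 4) (f5 : f 5 = 6) (f7 : f 7 = 10) (f8 : f 8 = 9) :
    Reach m 2 f (fun j => if 7 ≤ j ∧ j ≤ 10 then (if j % 2 = 1 then j + 1 else j - 1) else f j) := by
  have f2 := hf.symm (by omega) f1
  have f4 := hf.symm (by omega) f3
  have f6 := hf.symm (by omega) f5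
  have f10 := hf.symm (by omega) f7
  have f9 := hf.symm (by omega) f8
  have fl := hf.symm (by omega) f0
  have hg : PM m (fun j => if 1 ≤ j ∧ j ≤ 10 then 11 - j else f j) := by
    refine hf.patch (by omega) (fun j => 11 - j) (fun i a1 a2 => ?_) (fun i a1 a2 => by omega)
      fun i j a1 a2 => by omega
    interval_cases i <;> omega
  have hh : PM m (fun j => if 7 ≤ j ∧ j ≤ 10 then (if j % 2 = 1 then j + 1 else j - 1)
      else f j) := by
    refine hf.patch (by omega) (fun j => if j % 2 = 1 then j + 1 else j - 1) (fun i a1 a2 => ?_)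
      (fun i a1 a2 => ?_) fun i j a1 a2 => ?_
    · interval_cases i <;> omega
    · interval_cases i <;> simp
    · split_ifs <;> omega
  generalize hge : (fun j => if 1 ≤ j ∧ j ≤ 10 then 11 - j else f j) = g at hg
  generalize hhe : (fun j => if 7 ≤ j ∧ j ≤ 10 then (if j % 2 = 1 then j + 1 else j - 1)
      else f j) = h at hh ⊢
  have gi : ∀ j, 1 ≤ j → j ≤ 10 → g j = 11 - j := fun j a1 a2 => by rw [← hge]; simp [a1, a2]
  have go : ∀ j, j = 0 ∨ 10 < j → g j = f j := fun j a => by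
    rw [← hge]; exact if_neg (by omega)
  have ho : ∀ j, j < 7 ∨ 10 < j → h j = f j := fun j a => by
    rw [← hhe]; exact if_neg (by omega)
  have h7 : h 7 = 8 := by rw [← hhe]; simp
  have h9 : h 9 = 10 := by rw [← hhe]; simp
  have g0 : g 0 = m - 1 := (go 0 (by omega)).trans f0
  have g1 := gi 1 (by omega) (by omega)
  have g2 := gi 2 (by omega) (by omega)
  have g3 := gi 3 (by omega) (by omega)
  have g4 := gi 4 (by omega) (by omega)
  have g5 := gi 5 (by omega) (by omega)
  have g6 := gi 6 (by omega) (by omega)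
  have g7 := gi 7 (by omega) (by omega)
  have g8 := gi 8 (by omega) (by omega)
  have g9 := gi 9 (by omega) (by omega)
  have g10 := gi 10 (by omega) (by omega)
  refine .step hg ?_ (Near.reach hh ?_)
  · have G1 : Gr (OK2 f g) 4 7 7 false :=
      (((Gr.start 4).legR (ok_arc (by omega) (by omega))).spR
        ⟨ok_two_r hf (by omega) f5, ok_two_r hg (by omega) g5⟩).spR
        (ok_arc (x := 6) (by omega) (by omega))
    have G2 : Gr (OK2 f g) 3 8 3 false := by
      refine (G1.legR (ok_arc (by omega) (by omega))).spL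
        ⟨⟨by omega, fun i a1 a2 => ?_⟩, by omega, fun i a1 a2 => ?_⟩
      · interval_cases i <;> omega
      · interval_cases i <;> omega
    have G3 : Gr (OK2 f g) 2 10 10 true := by
      refine (G2.spL (ok_arc (by omega) (by omega))).byR
        ⟨⟨by omega, fun i a1 a2 => ?_⟩, by omega, fun i a1 a2 => ?_⟩
        (ok_arc (x := 9) (by omega) (by omega))
      · interval_cases i <;> omega
      · interval_cases i <;> omega
    obtain ⟨l, G4⟩ := stretchR hf hg (y := m - 1) (by omega)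
      (fun e => by have := hf.symm (by omega) e; omega) (m - 1 - 10) 10 _ (by omega)
      (fun i a1 a2 => by
        by_cases e : i = 10
        · rw [e]; omega
        · rw [go i (by omega)]) G3
    refine ((G4.spL (a := 1) ⟨⟨by omega, fun i a1 a2 => ?_⟩, by omega, fun i a1 a2 => ?_⟩).spL
      (ok_arc (by omega) (by omega))).near (by omega) hf hg
    · have := hf.under (by omega) f0 i (by omega) a2; omega
    · have := hg.under (by omega) g0 i (by omega) a2; omega
  · have h1 := ho 1 (by omega)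
    have h2 := ho 2 (by omega)
    have h3 := ho 3 (by omega)
    have h4 := ho 4 (by omega)
    have h5 := ho 5 (by omega)
    have h6 := ho 6 (by omega)
    have h0 := ho 0 (by omega)
    have h8 := hh.symm (by omega) h7
    have G1 : Gr (OK2 g h) 4 7 7 false :=
      (((Gr.start 4).legR (ok_arc (by omega) (by omega))).spR
        ⟨ok_two_r hg (by omega) g5, ok_two_r hh (by omega) (h5.trans f5)⟩).spR
        (ok_arc (x := 6) (by omega) (by omega))
    have G2 : Gr (OK2 g h) 2 9 9 false := by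
      refine ladder_step (x := 3) hg hh (by omega) (by omega) (by omega) (by omega) g4
        (by omega) (by omega) h7 (by omega) (by omega) (fun j a1 a2 => by omega)
        (fun j a1 a2 => by omega) (fun j a1 a2 => ?_) G1
      interval_cases j <;> omega
    have G3 : Gr (OK2 g h) 0 (m - 1) (m - 1) false := by
      refine ladder_step (x := 1) hg hh (by omega) (by omega) (by omega) (by omega) g2
        (by omega) (by omega) h9 g0 (by omega) (fun j a1 a2 => by omega)
        (fun j a1 a2 => by rw [ho j (by omega), go j (by omega)]) (fun j a1 a2 => ?_) G2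
      interval_cases j <;> omega
    exact G3.near (by omega) hg hh

end Pool.Agent.P.MP_d44d06_co
end

-- part Pool.Agent.P.MP_d44d06_co.Ladder
section

/-! The ladder move and flowers. -/

namespace Pool.Agent.P.MP_d44d06_co

/-- No edge other than the outer one passes over `x`. -/
def Unc (h : ℕ → ℕ) (x : ℕ) : Prop := ∀ j, 0 < j → j < x → h j < x

lemma unc_gt {m h x} (hh : PM m h) (h0 : h 0 = m - 1) (hx : h x = x + 1) (hm : x < m)
    (hu : Unc h x) (j : ℕ) (h1 : x + 1 < j) (h2 : j + 1 < m) : x + 1 < h j := by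
  by_contra hn
  have a1 := hh.inv j (by omega)
  have a2 := hh.symm hm hx
  by_cases e : h j = x
  · rw [e] at a1; omega
  by_cases e' : h j = x + 1
  · rw [e'] at a1; omega
  by_cases e'' : h j = 0
  · rw [e''] at a1; omega
  have := hu (h j) (by omega) (by omega)
  omega

lemma PM.swap {m f x y} (hf : PM m f) (hy : y + 1 < m) (hxy : x + 1 < y) (fx : f x = x + 1)
    (fy : f y = y + 1) (ci : ∀ j, x + 1 < j → j < y → x + 1 < f j ∧ f j < y) :
    ∃ g, PM m g ∧ g x = y + 1 ∧ g (x + 1) = y ∧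
      ∀ j, j ≠ x → j ≠ x + 1 → j ≠ y → j ≠ y + 1 → g j = f j := by
  have a1 := hf.symm (by omega) fx
  have a2 := hf.symm (by omega) fy
  let φ : ℕ → ℕ := fun j => if j = x then y + 1 else if j = x + 1 then y else if j = y then x + 1
    else if j = y + 1 then x else f j
  have p1 : φ x = y + 1 := by simp [φ]
  have p2 : φ (x + 1) = y := by simp [φ]
  have p3 : φ y = x + 1 := by
    simp only [φ]; rw [if_neg (by omega), if_neg (by omega)]; simp
  have p4 : φ (y + 1) = x := by
    simp only [φ]; rw [if_neg (by omega), if_neg (by omega), if_neg (by omega)]; simp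
  have p5 : ∀ j, j ≠ x → j ≠ x + 1 → j ≠ y → j ≠ y + 1 → φ j = f j := fun j b1 b2 b3 b4 => by
    simp only [φ]; rw [if_neg b1, if_neg b2, if_neg b3, if_neg b4]
  have cs : ∀ i, x ≤ i → i ≤ y + 1 → (i = x ∧ φ i = y + 1) ∨ (i = x + 1 ∧ φ i = y) ∨
      (i = y ∧ φ i = x + 1) ∨ (i = y + 1 ∧ φ i = x) ∨
      (x + 1 < i ∧ i < y ∧ φ i = f i ∧ x + 1 < f i ∧ f i < y) := by
    intro i b1 b2
    by_cases e1 : i = x
    · exact Or.inl ⟨e1, e1 ▸ p1⟩
    by_cases e2 : i = x + 1
    · exact Or.inr (Or.inl ⟨e2, e2 ▸ p2⟩)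
    by_cases e3 : i = y
    · exact Or.inr (Or.inr (Or.inl ⟨e3, e3 ▸ p3⟩))
    by_cases e4 : i = y + 1
    · exact Or.inr (Or.inr (Or.inr (Or.inl ⟨e4, e4 ▸ p4⟩)))
    exact Or.inr (Or.inr (Or.inr (Or.inr ⟨by omega, by omega, p5 i e1 e2 e3 e4,
      ci i (by omega) (by omega)⟩)))
  refine ⟨_, hf.patch (x := x) (y := y + 1) hy φ (fun i b1 b2 => ?_) (fun i b1 b2 => ?_)
    (fun i j b1 b2 b3 => ?_), ?_, ?_, fun j b1 b2 b3 b4 => ?_⟩
  · rcases cs i b1 b2 with e | e | e | e | e
    · rw [e.1]; omega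
    · rw [e.1]; omega
    · rw [e.1]; omega
    · rw [e.1]; omega
    · omega
  · rcases cs i b1 b2 with e | e | e | e | e
    · rw [e.2, p4]; omega
    · rw [e.2, p3]; omega
    · rw [e.2, p2]; omega
    · rw [e.2, p1]; omega
    · have := hf.ne i (by omega)
      rw [e.2.2.1, p5 _ (by omega) (by omega) (by omega) (by omega), hf.inv i (by omega)]
      omega
  · have := hf.nc i j (by have := cs j (by omega) b2; omega) (by omega)
    have := cs i b1 (by omega)
    have := cs j (by omega) b2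
    omega
  · rw [if_pos (by omega), p1]
  · rw [if_pos (by omega), p2]
  · split_ifs
    · exact p5 j b1 b2 b3 b4
    · rfl

lemma ladder_aux {m h k} (hh : PM m h) (h0 : h 0 = m - 1) (u a : ℕ → ℕ)
    (hu : ∀ i, i < k → h (u i) = u i + 1) (ha : ∀ i, i < k → h (a i) = a i + 1)
    (mu : ∀ i, i + 1 < k → u (i + 1) + 2 ≤ u i) (ma : ∀ i, i + 1 < k → a i + 2 ≤ a (i + 1))
    (hc : u 0 + 2 < a 0) (lt : ∀ i, i < k → a i + 2 < m)
    (cu : ∀ i, i < k → Unc h (u i)) (ca : ∀ i, i < k → Unc h (a i)) :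
    ∀ i, i < k → ∃ f, PM m f ∧ (∀ j, j < u i ∨ a i + 1 < j → f j = h j) ∧ f (u i) = a i + 1 ∧
      f (u i + 1) = a i ∧ (∀ j, f j = j + 1 ↔ (h j = j + 1 ∧ ∀ i', i' ≤ i → j ≠ u i' ∧ j ≠ a i')) ∧
      u i + 2 < a i ∧ Gr (OK2 f h) (u i + 1) (a i) (a i) false := by
  have ci : ∀ i, i < k → u i + 2 < a i → ∀ j, u i + 1 < j → j < a i →
      u i + 1 < h j ∧ h j < a i := fun i hi hl j b1 b2 => by
    have := lt i hi
    exact ⟨unc_gt hh h0 (hu i hi) (by omega) (cu i hi) j b1 (by omega), ca i hi j (by omega) b2⟩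
  intro i
  induction i with
  | zero =>
    intro hk
    have := lt 0 hk
    obtain ⟨f, hf, f1, f2, f3⟩ := hh.swap (by omega) (by omega) (hu 0 hk) (ha 0 hk) (ci 0 hk hc)
    have f4 := hf.symm (by omega) f1
    have f5 := hf.symm (by omega) f2
    have g1 := hh.symm (by omega) (hu 0 hk)
    have g2 := hh.symm (by omega) (ha 0 hk)
    refine ⟨f, hf, fun j hj => f3 j (by omega) (by omega) (by omega) (by omega), f1, f2,
      fun j => ?_, hc, ?_⟩
    · by_cases e1 : j = u 0
      · rw [e1]; exact ⟨by omega, fun e => absurd rfl (e.2 0 le_rfl).1⟩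
      by_cases e2 : j = u 0 + 1
      · rw [e2]; exact ⟨by omega, fun e => by omega⟩
      by_cases e3 : j = a 0
      · rw [e3]; exact ⟨by omega, fun e => absurd rfl (e.2 0 le_rfl).2⟩
      by_cases e4 : j = a 0 + 1
      · rw [e4]; exact ⟨by omega, fun e => by omega⟩
      rw [f3 j e1 e2 e3 e4]
      refine ⟨fun e => ⟨e, fun i' hi' => ?_⟩, fun e => e.1⟩
      obtain rfl : i' = 0 := by omega
      exact ⟨e1, e3⟩
    · refine stretchR0 hf hh (by omega) (a 0 - (u 0 + 1)) _ (by omega) (fun j b1 b2 => ?_)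
        (Or.inr (by omega)) (.start _)
      by_cases e : j = u 0 + 1
      · rw [e]; omega
      · rw [f3 j (by omega) e (by omega) (by omega)]
  | succ i ih =>
    intro hk
    obtain ⟨f, hf, e1, e2, e3, e4, e5, G⟩ := ih (by omega)
    have b1 := mu i hk
    have b2 := ma i hk
    have b3 := lt _ hk
    have hci := ci _ hk (by omega)
    obtain ⟨g, hg, g1, g2, g3⟩ := hf.swap (x := u (i + 1)) (y := a (i + 1)) (by omega) (by omega)
      ((e1 _ (by omega)).trans (hu _ hk)) ((e1 _ (by omega)).trans (ha _ hk)) (fun j c1 c2 => by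
        by_cases c3 : j < u i ∨ a i + 1 < j
        · rw [e1 j c3]; exact hci j c1 c2
        · have := hf.under (by omega) e2 j
          have := hf.symm (by omega) e2
          by_cases c4 : j = u i
          · rw [c4]; omega
          by_cases c5 : j = a i + 1
          · rw [c5]; omega
          omega)
    have g4 := hg.symm (by omega) g1
    have g5 := hg.symm (by omega) g2
    have k1 := hh.symm (by omega) (hu _ hk)
    have k2 := hh.symm (by omega) (ha _ hk)
    refine ⟨g, hg, fun j hj => ?_, g1, g2, fun j => ?_, by omega, ?_⟩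
    · rw [g3 j (by omega) (by omega) (by omega) (by omega), e1 j (by omega)]
    · by_cases c1 : j = u (i + 1)
      · rw [c1]; exact ⟨by omega, fun e => absurd rfl (e.2 _ le_rfl).1⟩
      by_cases c2 : j = u (i + 1) + 1
      · rw [c2]; exact ⟨by omega, fun e => by omega⟩
      by_cases c3 : j = a (i + 1)
      · rw [c3]; exact ⟨by omega, fun e => absurd rfl (e.2 _ le_rfl).2⟩
      by_cases c4 : j = a (i + 1) + 1
      · rw [c4]; exact ⟨by omega, fun e => by omega⟩
      rw [g3 j c1 c2 c3 c4, e4]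
      refine ⟨fun e => ⟨e.1, fun i' hi' => ?_⟩, fun e => ⟨e.1, fun i' hi' => e.2 i' (by omega)⟩⟩
      by_cases c5 : i' = i + 1
      · rw [c5]; exact ⟨c1, c3⟩
      · exact e.2 i' (by omega)
    · refine ladder_step (x := u i) (R := a i) hg hh (by omega) (by omega) b2 (by omega) ?_ ?_
        (hu i (by omega)) (ha i (by omega)) g2 (by omega) (fun j c1 c2 => ?_) (fun j c1 c2 => ?_)
        (ci i (by omega) e5) (G.congr fun j c1 c2 => g3 j (by omega) (by omega) (by omega) (by omega))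
      · rw [g3 _ (by omega) (by omega) (by omega) (by omega), e3]
      · rw [g3 _ (by omega) (by omega) (by omega) (by omega), e2]
      · rw [g3 _ (by omega) (by omega) (by omega) (by omega), e1 j (by omega)]
        exact ⟨rfl, (hci j c1 (by omega)).1, cu i (by omega) j (by omega) c2⟩
      · rw [g3 _ (by omega) (by omega) (by omega) (by omega), e1 j (by omega)]

lemma ladder {m h k} (hh : PM m h) (h0 : h 0 = m - 1) (u a : ℕ → ℕ)
    (hu : ∀ i, i < k → h (u i) = u i + 1) (ha : ∀ i, i < k → h (a i) = a i + 1)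
    (mu : ∀ i, i + 1 < k → u (i + 1) + 2 ≤ u i) (ma : ∀ i, i + 1 < k → a i + 2 ≤ a (i + 1))
    (hc : 0 < k → u 0 + 2 < a 0) (pos : ∀ i, i < k → 0 < u i) (lt : ∀ i, i < k → a i + 2 < m)
    (cu : ∀ i, i < k → Unc h (u i)) (ca : ∀ i, i < k → Unc h (a i)) :
    ∃ f, PM m f ∧ f 0 = m - 1 ∧ Reach m 1 f h ∧
      ∀ j, f j = j + 1 ↔ (h j = j + 1 ∧ ∀ i, i < k → j ≠ u i ∧ j ≠ a i) := by
  rcases Nat.eq_zero_or_pos k with rfl | hk
  · exact ⟨h, hh, h0, .refl fun _ _ => rfl, fun j => by simp⟩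
  obtain ⟨i, rfl⟩ : ∃ i, k = i + 1 := ⟨k - 1, by omega⟩
  obtain ⟨f, hf, e1, e2, e3, e4, e5, G⟩ := ladder_aux hh h0 u a hu ha mu ma (hc hk) lt cu ca i
    (by omega)
  have b1 := pos i (by omega)
  have b2 := lt i (by omega)
  have f0 : f 0 = m - 1 := (e1 0 (by omega)).trans h0
  refine ⟨f, hf, f0, Near.reach hh (Gr.near (by omega) hf hh (ladder_step (x := u i) (R := a i)
    hf hh (by omega) (by omega) (by omega) (by omega) e3 e2 (hu i (by omega)) (ha i (by omega)) f0
    (by omega) (fun j c1 c2 => ?_) (fun j c1 c2 => (e1 j (by omega)).symm) (fun j c1 c2 => ?_) G)),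
    fun j => ?_⟩
  · rw [e1 j (by omega)]
    refine ⟨rfl, Nat.pos_of_ne_zero fun e => ?_, cu i (by omega) j c1 c2⟩
    have := hh.symm (by omega) e
    omega
  · exact ⟨unc_gt hh h0 (hu i (by omega)) (by omega) (cu i (by omega)) j c1 (by omega),
      ca i (by omega) j (by omega) c2⟩
  · rw [e4]
    exact ⟨fun e => ⟨e.1, fun i' hi' => e.2 i' (by omega)⟩,
      fun e => ⟨e.1, fun i' hi' => e.2 i' (by omega)⟩⟩

/-- `k` and `k'` are consecutive open cells. -/
def Cons (op : ℕ → Prop) (k k' : ℕ) : Prop :=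
  k < k' ∧ op k ∧ op k' ∧ ∀ i, k < i → i < k' → ¬ op i

lemma exists_next {op : ℕ → Prop} {k q : ℕ} (hk : op k) (hq : op q) (h : k < q) :
    ∃ k', k' ≤ q ∧ Cons op k k' := by
  classical
  have ex : ∃ j, k < j ∧ op j := ⟨q, h, hq⟩
  exact ⟨Nat.find ex, Nat.find_min' ex ⟨h, hq⟩, (Nat.find_spec ex).1, hk, (Nat.find_spec ex).2,
    fun i h1 h2 h3 => Nat.find_min ex h2 ⟨h1, h3⟩⟩

lemma exists_prev {op : ℕ → Prop} {k p : ℕ} (hk : op k) (hp : op p) (h : p < k) :
    ∃ k', p ≤ k' ∧ Cons op k' k := by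
  classical
  have ex : ∃ d, 0 < d ∧ d ≤ k ∧ op (k - d) :=
    ⟨k - p, by omega, by omega, by rwa [show k - (k - p) = p by omega]⟩
  have h1 := Nat.find_spec ex
  have h2 : Nat.find ex ≤ k - p :=
    Nat.find_min' ex ⟨by omega, by omega, by rwa [show k - (k - p) = p by omega]⟩
  refine ⟨k - Nat.find ex, by omega, by omega, h1.2.2, hk, fun i h3 h4 h5 => ?_⟩
  exact Nat.find_min ex (m := k - i) (by omega)
    ⟨by omega, by omega, by rwa [show k - (k - i) = i by omega]⟩

lemma Cons.uniq_r {op k a b} (h : Cons op k a) (h' : Cons op k b) : a = b := by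
  rcases lt_trichotomy a b with e | e | e
  · exact absurd h.2.2.1 (h'.2.2.2 a h.1 e)
  · exact e
  · exact absurd h'.2.2.1 (h.2.2.2 b h'.1 e)

lemma Cons.uniq_l {op k a b} (h : Cons op a k) (h' : Cons op b k) : a = b := by
  rcases lt_trichotomy a b with e | e | e
  · exact absurd h'.2.1 (h.2.2.2 b e h'.1)
  · exact e
  · exact absurd h.2.1 (h'.2.2.2 a e h.1)

/-- The flower of a set of open cells. -/
structure IsFl (n : ℕ) (op : ℕ → Prop) (F : ℕ → ℕ) : Prop where
  pm : PM (2 * n) F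
  f0 : F 0 = 2 * n - 1
  op0 : op 0
  opl : op (n - 1)
  cl : ∀ k, k < n → ¬ op k → F (2 * k) = 2 * k + 1
  cons : ∀ k k', k' < n → Cons op k k' → F (2 * k + 1) = 2 * k'

lemma exists_flower {n : ℕ} (hn : 0 < n) {op : ℕ → Prop} (h0 : op 0) (hl : op (n - 1)) :
    ∃ F, IsFl n op F := by
  classical
  have e1 : ∀ k, ∃ k', op k → k < n - 1 → k' < n ∧ Cons op k k' := fun k => by
    by_cases h : op k ∧ k < n - 1
    · obtain ⟨k', a, b⟩ := exists_next h.1 hl h.2
      exact ⟨k', fun _ _ => ⟨by omega, b⟩⟩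
    · exact ⟨0, fun a b => absurd ⟨a, b⟩ h⟩
  have e2 : ∀ k, ∃ k', op k → 0 < k → Cons op k' k := fun k => by
    by_cases h : op k ∧ 0 < k
    · obtain ⟨k', -, b⟩ := exists_prev h.1 h0 h.2
      exact ⟨k', fun _ _ => b⟩
    · exact ⟨0, fun a b => absurd ⟨a, b⟩ h⟩
  choose nx hnx using e1
  choose pv hpv using e2
  let F : ℕ → ℕ := fun x => if op (x / 2) then
      (if x % 2 = 1 then (if x / 2 = n - 1 then 0 else 2 * nx (x / 2))
        else (if x / 2 = 0 then 2 * n - 1 else 2 * pv (x / 2) + 1))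
    else (if x % 2 = 1 then x - 1 else x + 1)
  have c1 : ∀ k, ¬ op k → F (2 * k) = 2 * k + 1 := fun k hk => by
    simp only [F]; rw [show 2 * k / 2 = k by omega, if_neg hk, if_neg (by omega)]
  have c2 : ∀ k, ¬ op k → F (2 * k + 1) = 2 * k := fun k hk => by
    simp only [F]; rw [show (2 * k + 1) / 2 = k by omega, if_neg hk, if_pos (by omega)]; omega
  have c3 : ∀ k k', k' < n → Cons op k k' → F (2 * k + 1) = 2 * k' := fun k k' hk hc => by
    have := hc.1
    simp only [F]
    rw [show (2 * k + 1) / 2 = k by omega, if_pos hc.2.1, if_pos (by omega), if_neg (by omega),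
      (hnx k hc.2.1 (by omega)).2.uniq_r hc]
  have c4 : ∀ k k', Cons op k k' → F (2 * k') = 2 * k + 1 := fun k k' hc => by
    have := hc.1
    simp only [F]
    rw [show 2 * k' / 2 = k' by omega, if_pos hc.2.2.1, if_neg (by omega), if_neg (by omega),
      (hpv k' hc.2.2.1 (by omega)).uniq_l hc]
  have c5 : F 0 = 2 * n - 1 := by simp [F, h0]
  have c6 : F (2 * n - 1) = 0 := by
    simp only [F]
    rw [show (2 * n - 1) / 2 = n - 1 by omega, if_pos hl, if_pos (by omega), if_pos rfl]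
  have cs : ∀ x, x < 2 * n → (∃ k, ¬ op k ∧ x = 2 * k) ∨ (∃ k, ¬ op k ∧ x = 2 * k + 1) ∨
      (∃ k k', k' < n ∧ Cons op k k' ∧ x = 2 * k + 1) ∨ (∃ k k', Cons op k k' ∧ x = 2 * k') ∨
      x = 0 ∨ x = 2 * n - 1 := by
    intro x hx
    by_cases h : op (x / 2)
    · by_cases h1 : x % 2 = 1
      · by_cases h2 : x / 2 = n - 1
        · omega
        · exact Or.inr (Or.inr (Or.inl ⟨_, _, (hnx _ h (by omega)).1, (hnx _ h (by omega)).2,
            by omega⟩))
      · by_cases h2 : x / 2 = 0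
        · omega
        · exact Or.inr (Or.inr (Or.inr (Or.inl ⟨_, _, hpv _ h (by omega), by omega⟩)))
    · by_cases h1 : x % 2 = 1
      · exact Or.inr (Or.inl ⟨_, h, by omega⟩)
      · exact Or.inl ⟨_, h, by omega⟩
  have hlt : ∀ x, x < 2 * n → F x < 2 * n := by
    intro x hx
    rcases cs x hx with ⟨k, a, rfl⟩ | ⟨k, a, rfl⟩ | ⟨k, k', a, b, rfl⟩ | ⟨k, k', b, rfl⟩ | rfl | rfl
    · rw [c1 k a]; omega
    · rw [c2 k a]; omega
    · rw [c3 k k' a b]; omega
    · rw [c4 k k' b]; have := b.1; omega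
    · omega
    · omega
  refine ⟨F, ⟨hlt, fun x hx => ?_, fun x hx => ?_, fun x y hx hy e => ?_⟩, c5, h0, hl,
    fun k _ => c1 k, c3⟩
  · rcases cs x hx with ⟨k, a, rfl⟩ | ⟨k, a, rfl⟩ | ⟨k, k', a, b, rfl⟩ | ⟨k, k', b, rfl⟩ | rfl | rfl
    · rw [c1 k a, c2 k a]
    · rw [c2 k a, c1 k a]
    · rw [c3 k k' a b, c4 k k' b]
    · rw [c4 k k' b, c3 k k' (by omega) b]
    · rw [c5, c6]
    · rw [c6, c5]
  · rcases cs x hx with ⟨k, a, rfl⟩ | ⟨k, a, rfl⟩ | ⟨k, k', a, b, rfl⟩ | ⟨k, k', b, rfl⟩ | rfl | rfl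
    · rw [c1 k a]; omega
    · rw [c2 k a]; omega
    · rw [c3 k k' a b]; omega
    · rw [c4 k k' b]; omega
    · omega
    · omega
  · have := hlt y hy
    rcases cs x hx with ⟨k, a, rfl⟩ | ⟨k, a, rfl⟩ | ⟨k, k', a, b, rfl⟩ | ⟨k, k', b, rfl⟩ | rfl | rfl
    · rw [c1 k a] at e; omega
    · rw [c2 k a] at e; omega
    · rw [c3 k k' a b] at e
      have h1 := b.2.2.2 (y / 2) (by omega) (by omega)
      have h2 := c1 _ h1
      have h3 := c2 _ h1
      rcases Nat.mod_two_eq_zero_or_one y with h4 | h4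
      · rw [show 2 * (y / 2) = y by omega] at h2; omega
      · rw [show 2 * (y / 2) + 1 = y by omega] at h3; omega
    · rw [c4 k k' b] at e; have := b.1; omega
    · omega
    · omega

end Pool.Agent.P.MP_d44d06_co
end

-- part Pool.Agent.P.MP_d44d06_co.Flower
section

/-! Every matching is within two moves of a flower. -/

namespace Pool.Agent.P.MP_d44d06_co

lemma IsFl.val {n op F} (h : IsFl n op F) (x : ℕ) (hx : x < 2 * n) :
    (¬ op (x / 2) ∧ ((x % 2 = 0 ∧ F x = x + 1) ∨ (x % 2 = 1 ∧ F x + 1 = x))) ∨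
    (x % 2 = 1 ∧ ∃ k', k' < n ∧ Cons op (x / 2) k' ∧ F x = 2 * k') ∨
    (x % 2 = 0 ∧ ∃ k', Cons op k' (x / 2) ∧ F x = 2 * k' + 1) ∨ x = 0 ∨ x = 2 * n - 1 := by
  by_cases ho : op (x / 2)
  · by_cases h1 : x % 2 = 1
    · by_cases h2 : x / 2 = n - 1
      · omega
      · obtain ⟨k', a, b⟩ := exists_next ho h.opl (by omega)
        have := h.cons _ k' (by omega) b
        rw [show 2 * (x / 2) + 1 = x by omega] at this
        exact Or.inr (Or.inl ⟨h1, k', by omega, b, this⟩)
    · by_cases h2 : x / 2 = 0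
      · omega
      · obtain ⟨k', -, b⟩ := exists_prev ho h.op0 (by omega)
        have := h.pm.symm (by have := b.1; omega) (h.cons _ _ (by omega) b)
        rw [show 2 * (x / 2) = x by omega] at this
        exact Or.inr (Or.inr (Or.inl ⟨by omega, k', b, this⟩))
  · have a := h.cl _ (by omega) ho
    have b := h.pm.symm (by omega) a
    refine Or.inl ⟨ho, ?_⟩
    by_cases h1 : x % 2 = 1
    · rw [show 2 * (x / 2) + 1 = x by omega] at b; omega
    · rw [show 2 * (x / 2) = x by omega] at a; omega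

lemma Cons.le_r {op k k' j} (h : Cons op k k') (hj : op j) (hk : k < j) : k' ≤ j :=
  Nat.le_of_not_lt fun e => h.2.2.2 j hk e hj

lemma Cons.le_l {op k k' j} (h : Cons op k k') (hj : op j) (hk : j < k') : j ≤ k :=
  Nat.le_of_not_lt fun e => h.2.2.2 j e hk hj

lemma cons_succ {op : ℕ → Prop} {k} (h : op k) (h' : op (k + 1)) : Cons op k (k + 1) :=
  ⟨by omega, h, h', fun i _ _ => by omega⟩

lemma IsFl.arc_even {n op F} (h : IsFl n op F) (hn : 2 ≤ n) (k : ℕ) (hk : k < n) :
    F (2 * k) = 2 * k + 1 ↔ ¬ op k := by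
  refine ⟨fun e ho => ?_, h.cl k hk⟩
  have := h.f0
  rcases h.val (2 * k) (by omega) with a | a | ⟨-, k', b, c⟩ | a | a
  · rw [show 2 * k / 2 = k by omega] at a; exact a.1 ho
  · omega
  · have := b.1; omega
  · rw [a] at e; omega
  · omega

lemma IsFl.arc_odd {n op F} (h : IsFl n op F) (k : ℕ) (hk : k + 1 < n) :
    F (2 * k + 1) = 2 * k + 2 ↔ op k ∧ op (k + 1) := by
  refine ⟨fun e => ?_, fun e => h.cons k (k + 1) hk (cons_succ e.1 e.2)⟩
  rcases h.val (2 * k + 1) (by omega) with a | ⟨-, k', a, b, c⟩ | a | a | a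
  · omega
  · rw [show (2 * k + 1) / 2 = k by omega] at b
    obtain rfl : k' = k + 1 := by omega
    exact ⟨b.2.1, b.2.2.1⟩
  all_goals omega

lemma IsFl.unc {n op F} (h : IsFl n op F) {j : ℕ} (hj : j < n) (ho : op j) :
    Unc F (2 * j + 1) := by
  intro y h1 h2
  rcases h.val y (by omega) with a | ⟨a, k', -, b, c⟩ | ⟨a, k', b, c⟩ | a | a
  · have : y / 2 ≠ j := fun e => a.1 (e ▸ ho)
    omega
  · have := b.le_r ho (by omega); omega
  · have := b.1; omega
  all_goals omega

lemma exists_enum (N : ℕ → Prop) (n : ℕ) : ∃ (K : ℕ) (e : ℕ → ℕ),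
    (∀ i, i < K → N (e i) ∧ e i < n) ∧ (∀ i j, i < j → j < K → e i < e j) ∧
    ∀ x, x < n → N x → ∃ i, i < K ∧ e i = x := by
  induction n with
  | zero => exact ⟨0, id, by omega, by omega, by omega⟩
  | succ n ih =>
    obtain ⟨K, e, h1, h2, h3⟩ := ih
    by_cases h : N n
    · refine ⟨K + 1, fun i => if i = K then n else e i, fun i hi => ?_, fun i j hij hj => ?_,
        fun x hx hN => ?_⟩
      · beta_reduce
        split_ifs with c
        · exact ⟨h, by omega⟩
        · have := h1 i (by omega); exact ⟨this.1, by omega⟩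
      · beta_reduce
        rw [if_neg (show ¬ i = K by omega)]
        split_ifs with c
        · exact (h1 i (by omega)).2
        · exact h2 i j hij (by omega)
      · by_cases c : x = n
        · exact ⟨K, by omega, by simp [c]⟩
        · obtain ⟨i, a, b⟩ := h3 x (by omega) hN
          exact ⟨i, by omega, by beta_reduce; rw [if_neg (by omega)]; exact b⟩
    · refine ⟨K, e, fun i hi => ⟨(h1 i hi).1, by have := (h1 i hi).2; omega⟩, h2, fun x hx hN => ?_⟩
      exact h3 x (by have : x ≠ n := fun c => h (c ▸ hN); omega) hN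

lemma to_flower_aux {n f} (hn : 2 ≤ n) (hf : PM (2 * n) f) (f0 : f 0 = 2 * n - 1) {K : ℕ}
    {e : ℕ → ℕ}
    (h1 : ∀ i, i < K → e i + 1 < n ∧ f (2 * e i) ≠ 2 * e i + 1 ∧
      f (2 * (e i + 1)) ≠ 2 * (e i + 1) + 1 ∧ f (2 * e i + 1) ≠ 2 * e i + 2)
    (h2 : ∀ i j, i < j → j < K → e i < e j)
    (h3 : ∀ x, x + 1 < n → f (2 * x) ≠ 2 * x + 1 → f (2 * (x + 1)) ≠ 2 * (x + 1) + 1 →
      f (2 * x + 1) ≠ 2 * x + 2 → ∃ i, i < K ∧ e i = x)
    (g k : ℕ) (hk : 2 * k ≤ K) (hg0 : g ≠ 0) (hgl : g ≠ n - 1)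
    (hge : ∀ t, t < K → (t < k ∨ K - k ≤ t) → e t ≠ g ∧ e t + 1 ≠ g)
    (hgo : ∀ j, j + 1 < n → f (2 * j + 1) = 2 * j + 2 → j ≠ g ∧ j + 1 ≠ g)
    (hc : 0 < k → e (k - 1) + 1 < e (K - k)) :
    ∃ F A, IsFl n (fun j => f (2 * j) ≠ 2 * j + 1 ∧ j ≠ g) F ∧ PM (2 * n) A ∧ A 0 = 2 * n - 1 ∧
      Reach (2 * n) 1 A F ∧
      (∀ j, j < n → (A (2 * j) = 2 * j + 1 ↔ f (2 * j) = 2 * j + 1 ∨ j = g)) ∧
      (∀ j, j + 1 < n → (A (2 * j + 1) = 2 * j + 2 ↔ f (2 * j + 1) = 2 * j + 2 ∨
        ∃ t, k ≤ t ∧ t < K - k ∧ e t = j ∧ j ≠ g ∧ j + 1 ≠ g)) := by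
  have fl := hf.symm (by omega) f0
  obtain ⟨F, hF⟩ := exists_flower (n := n) (by omega)
    (op := fun j => f (2 * j) ≠ 2 * j + 1 ∧ j ≠ g) ⟨by simp only [mul_zero]; omega, hg0.symm⟩
    ⟨fun c => by
      have := hf.symm (by omega) c
      rw [show 2 * (n - 1) + 1 = 2 * n - 1 by omega] at this; omega, hgl.symm⟩
  have key : ∀ t, t < K → (t < k ∨ K - k ≤ t) → F (2 * e t + 1) = 2 * e t + 1 + 1 ∧
      Unc F (2 * e t + 1) := fun t a b =>
    ⟨(hF.arc_odd _ (h1 t a).1).2 ⟨⟨(h1 t a).2.1, (hge t a b).1⟩, (h1 t a).2.2.1, (hge t a b).2⟩,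
      hF.unc (by have := (h1 t a).1; omega) ⟨(h1 t a).2.1, (hge t a b).1⟩⟩
  obtain ⟨A, hA, A0, hR, hE⟩ := ladder (k := k) hF.pm hF.f0 (fun i => 2 * e (k - 1 - i) + 1)
    (fun i => 2 * e (K - k + i) + 1) (fun i hi => (key _ (by omega) (by omega)).1)
    (fun i hi => (key _ (by omega) (by omega)).1)
    (fun i hi => by have := h2 (k - 1 - (i + 1)) (k - 1 - i) (by omega) (by omega); omega)
    (fun i hi => by have := h2 (K - k + i) (K - k + (i + 1)) (by omega) (by omega); omega)
    (fun a => by have := hc a; simp only [Nat.sub_zero, Nat.add_zero]; omega) (fun i _ => by omega)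
    (fun i hi => by have := (h1 (K - k + i) (by omega)).1; omega)
    (fun i hi => (key _ (by omega) (by omega)).2) (fun i hi => (key _ (by omega) (by omega)).2)
  refine ⟨F, A, hF, hA, A0, hR, fun j hj => ?_, fun j hj => ?_⟩
  · rw [hE, hF.arc_even hn j hj]
    constructor
    · intro c; have := c.1; tauto
    · intro c; exact ⟨by tauto, fun i _ => by omega⟩
  · rw [hE, show 2 * j + 1 + 1 = 2 * j + 2 from rfl, hF.arc_odd j hj]
    constructor
    · rintro ⟨⟨c1, c2⟩, c3⟩
      by_cases c : f (2 * j + 1) = 2 * j + 2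
      · exact Or.inl c
      obtain ⟨t, a, b⟩ := h3 j hj c1.1 c2.1 c
      refine Or.inr ⟨t, ?_, ?_, b, c1.2, c2.2⟩
      · by_contra d
        have := (c3 (k - 1 - t) (by omega)).1
        rw [show k - 1 - (k - 1 - t) = t by omega] at this; omega
      · by_contra d
        have := (c3 (t - (K - k)) (by omega)).2
        rw [show K - k + (t - (K - k)) = t by omega] at this; omega
    · rintro (c | ⟨t, a, b, rfl, c, d⟩)
      · have c' := hf.symm (by omega) c
        refine ⟨⟨⟨fun d => ?_, (hgo j hj c).1⟩, ?_, (hgo j hj c).2⟩, fun i hi => ⟨fun d => ?_,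
          fun d => ?_⟩⟩
        · have := hf.symm (by omega) d; omega
        · rw [show 2 * (j + 1) = 2 * j + 2 by omega]; omega
        · exact (h1 (k - 1 - i) (by omega)).2.2.2 (by rw [show e (k - 1 - i) = j by omega]; exact c)
        · exact (h1 (K - k + i) (by omega)).2.2.2 (by rw [show e (K - k + i) = j by omega]; exact c)
      · refine ⟨⟨⟨(h1 t (by omega)).2.1, c⟩, (h1 t (by omega)).2.2.1, d⟩, fun i hi => ⟨?_, ?_⟩⟩
        · have := h2 (k - 1 - i) t (by omega) (by omega); omega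
        · have := h2 t (K - k + i) (by omega) (by omega); omega

lemma arcs_of {n : ℕ} {f A : ℕ → ℕ} (p : ℕ)
    (h1 : ∀ j, j < n → 2 * j ≠ p → (A (2 * j) = 2 * j + 1 ↔ f (2 * j) = 2 * j + 1))
    (h2 : ∀ j, j + 1 < n → 2 * j + 1 ≠ p →
      (A (2 * j + 1) = 2 * j + 2 ↔ f (2 * j + 1) = 2 * j + 2)) :
    ∀ i, i ≠ p → i + 1 < 2 * n → (f i = i + 1 ↔ A i = i + 1) := by
  intro i a b
  obtain ⟨j, rfl | rfl⟩ := Nat.even_or_odd' i
  · exact (h1 j (by omega) a).symm
  · exact (h2 j (by omega) a).symm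

theorem to_flower {n f} (hn : 2 ≤ n) (hf : PM (2 * n) f) (f0 : f 0 = 2 * n - 1) :
    ∃ op F g, IsFl n op F ∧ Reach (2 * n) 2 f F ∧
      ∀ j, op j ↔ (f (2 * j) ≠ 2 * j + 1 ∧ j ≠ g) := by
  obtain ⟨K, e, h1, h2, h3⟩ := exists_enum (fun x => x + 1 < n ∧ f (2 * x) ≠ 2 * x + 1 ∧
    f (2 * (x + 1)) ≠ 2 * (x + 1) + 1 ∧ f (2 * x + 1) ≠ 2 * x + 2) n
  have aux := to_flower_aux hn hf f0 (fun i hi => (h1 i hi).1) h2
    fun x a b c d => h3 x (by omega) ⟨a, b, c, d⟩
  have hlt : ∀ t, t < K → e t + 1 < n := fun t ht => (h1 t ht).1.1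
  obtain ⟨k, rfl | rfl⟩ := Nat.even_or_odd' K
  · by_cases hc : 0 < k → e (k - 1) + 1 < e (2 * k - k)
    · obtain ⟨F, A, hF, hA, A0, hR, a1, a2⟩ := aux n k le_rfl (by omega) (by omega)
        (fun t a _ => by have := hlt t a; omega) (fun j a _ => by omega) hc
      refine ⟨_, F, n, hF, .step hA (near_same (by omega) hf hA (fun i _ b => ?_) (by omega)) hR,
        fun _ => Iff.rfl⟩
      refine arcs_of (n := n) (2 * n) (fun j c _ => ?_) (fun j c _ => ?_) i (by omega) (by omega)
      · rw [a1 j c]; exact or_iff_left (by omega)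
      · rw [a2 j c]; exact or_iff_left (by omega)
    · obtain ⟨k, rfl⟩ : ∃ j, k = j + 1 := ⟨k - 1, by omega⟩
      rw [show k + 1 - 1 = k by omega, show 2 * (k + 1) - (k + 1) = k + 1 by omega] at hc
      have b1 := h2 k (k + 1) (by omega) (by omega)
      have b2 : e (k + 1) = e k + 1 := by omega
      have b3 := hlt (k + 1) (by omega)
      obtain ⟨F, A, hF, hA, A0, hR, a1, a2⟩ := aux (e k + 1) k (by omega) (by omega) (by omega)
        (fun t a b => by
          rcases b with b | b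
          · have := h2 t k b (by omega); omega
          · have := h2 (k + 1) t (by omega) a; omega)
        (fun j a b => ⟨fun c => (h1 (k + 1) (by omega)).1.2.2.2 (by rw [b2, ← c]; exact b),
          fun c => (h1 k (by omega)).1.2.2.2 (by rw [show e k = j by omega]; exact b)⟩)
        (fun a => by
          have := h2 (k - 1) k (by omega) (by omega)
          have := h2 k (2 * (k + 1) - k) (by omega) (by omega)
          omega)
      refine ⟨_, F, _, hF, .step hA (near_gap (p := 2 * (e k + 1)) (by omega) hf hA f0 A0 (by omega)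
        ((a1 _ (by omega)).2 (Or.inr rfl))
        (arcs_of _ (fun j c d => ?_) fun j c _ => ?_)) hR, fun _ => Iff.rfl⟩
      · rw [a1 j c]; exact or_iff_left (by omega)
      · rw [a2 j c]
        refine or_iff_left ?_
        rintro ⟨t, c1, c2, c3, c4, c5⟩
        obtain rfl | rfl : t = k ∨ t = k + 1 := by omega
        all_goals omega
  · have b3 := hlt k (by omega)
    obtain ⟨F, A, hF, hA, A0, hR, a1, a2⟩ := aux n k (by omega) (by omega) (by omega)
      (fun t a _ => by have := hlt t a; omega) (fun j a _ => by omega)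
      (fun a => by
        have := h2 (k - 1) k (by omega) (by omega)
        have := h2 k (2 * k + 1 - k) (by omega) (by omega)
        omega)
    refine ⟨_, F, _, hF, .step hA (near_gap (p := 2 * e k + 1) (by omega) hf hA f0 A0 (by omega)
      ((a2 _ b3).2 (Or.inr ⟨k, le_rfl, by omega, rfl, by omega, by omega⟩))
      (arcs_of _ (fun j c _ => ?_) fun j c d => ?_)) hR, fun _ => Iff.rfl⟩
    · rw [a1 j c]; exact or_iff_left (by omega)
    · rw [a2 j c]
      refine or_iff_left ?_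
      rintro ⟨t, c1, c2, c3, -⟩
      obtain rfl : t = k := by omega
      omega

end Pool.Agent.P.MP_d44d06_co
end

-- part Pool.Agent.P.MP_d44d06_co.Spin
section

/-! A flower is adjacent to a perimeter matching with at most two blocks. -/

namespace Pool.Agent.P.MP_d44d06_co

def cell (x : ℕ) : ℕ := if x % 2 = 0 then x + 1 else x - 1

def hub1 (c x : ℕ) : ℕ := if 2 * c ≤ x ∧ x ≤ 2 * c + 3 then 4 * c + 3 - x else cell x

def hub (n c x : ℕ) : ℕ := if x ≤ 1 ∨ 2 * n - 2 ≤ x then 2 * n - 1 - x else hub1 c x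

lemma hub_val (n c x : ℕ) : ((x ≤ 1 ∨ 2 * n - 2 ≤ x) ∧ hub n c x = 2 * n - 1 - x) ∨
    (1 < x ∧ x < 2 * n - 2 ∧ ((2 * c ≤ x ∧ x ≤ 2 * c + 3 ∧ hub n c x = 4 * c + 3 - x) ∨
      ((x < 2 * c ∨ 2 * c + 3 < x) ∧
        ((x % 2 = 0 ∧ hub n c x = x + 1) ∨ (x % 2 = 1 ∧ hub n c x + 1 = x))))) := by
  unfold hub hub1 cell; split_ifs <;> omega

lemma hub_pm {n c} (hn : 2 ≤ n) (hc : n ≤ c ∨ (1 ≤ c ∧ c + 3 ≤ n)) : PM (2 * n) (hub n c) := by
  refine ⟨fun i hi => ?_, fun i hi => ?_, fun i hi => ?_, fun i j hi hj => ?_⟩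
  · have := hub_val n c i; omega
  · have := hub_val n c i; have := hub_val n c (hub n c i); omega
  · have := hub_val n c i; omega
  · have := hub_val n c i; have := hub_val n c j; omega

structure Ctx (n : ℕ) (op : ℕ → Prop) (F : ℕ → ℕ) (c : ℕ) : Prop where
  fl : IsFl n op F
  hn : 4 ≤ n
  hc : n ≤ c ∨ (1 ≤ c ∧ c + 3 ≤ n ∧ op c ∧ op (c + 1))

namespace Ctx

variable {n : ℕ} {op : ℕ → Prop} {F : ℕ → ℕ} {c : ℕ} (X : Ctx n op F c)
include X

lemma pmH : PM (2 * n) (hub n c) :=
  hub_pm (by have := X.hn; omega) (X.hc.imp id fun h => ⟨h.1, h.2.1⟩)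

lemma ok {u v : ℕ} (k k' : ℕ) (hu : u / 2 = k) (hv : v / 2 = k') (ou : op k) (ov : op k')
    (h1 : 1 ≤ u) (h2 : u + 1 < v) (h3 : v ≤ 2 * n - 2)
    (h4 : n ≤ c ∨ (u ≤ 2 * c ∧ 2 * c + 3 ≤ v ∧ (u ≠ 2 * c ∨ v ≠ 2 * c + 3)))
    (h5 : u ≠ 1 ∨ v ≠ 2 * n - 2)
    (h6 : u % 2 = 0 ∨ v % 2 = 1 ∨ ∃ j, op j ∧ k < j ∧ j < k') : OK2 F (hub n c) u v := by
  subst hu hv
  have h7 : u % 2 = 0 ∨ v % 2 = 1 ∨ ∀ k', Cons op (u / 2) k' → k' < v / 2 :=
    h6.imp id (Or.imp id fun ⟨j, j1, j2, j3⟩ k' d => lt_of_le_of_lt (d.le_r j1 j2) j3)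
  clear h6
  refine ⟨⟨fun e => ?_, fun y a b => ?_⟩, ?_, fun y a b => ?_⟩
  · rcases X.fl.val u (by omega) with d | ⟨d, k', -, d1, d2⟩ | ⟨d, k', d1, d2⟩ | d | d
    · exact d.1 ou
    · rcases h7 with h | h | h
      · omega
      · omega
      · have := h k' d1; omega
    · have := d1.1; omega
    all_goals omega
  · rcases X.fl.val y (by omega) with d | ⟨d, k', -, d1, d2⟩ | ⟨d, k', d1, d2⟩ | d | d
    · omega
    · have := d1.le_r ov (by omega); have := d1.1; omega
    · have := d1.le_l ou (by omega); have := d1.1; omega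
    all_goals omega
  · have := hub_val n c u; omega
  · have := hub_val n c y; omega

lemma frzS {k k' : ℕ} (h : Cons op k k') (h1 : k + 1 < k') (h2 : k' < n) :
    Frozen F (hub n c) (2 * k + 1) (2 * k') := by
  have hn := X.hn
  have hc : n ≤ c ∨ c + 1 ≤ k ∨ k' ≤ c := by
    rcases X.hc with d | ⟨-, -, d1, d2⟩
    · exact Or.inl d
    · by_cases e : k < c
      · have := h.le_r d1 e; omega
      · by_cases e' : k = c
        · have := h.le_r d2 (by omega); omega
        · omega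
  intro i a b
  have := hub_val n c i
  obtain ⟨j, rfl | rfl⟩ := Nat.even_or_odd' i
  · rw [X.fl.arc_even (by omega) j (by omega)]
    exact iff_of_true (h.2.2.2 j (by omega) (by omega)) (by omega)
  · rw [show 2 * j + 1 + 1 = 2 * j + 2 from rfl, X.fl.arc_odd j (by omega)]
    refine iff_of_false (fun e => ?_) (by omega)
    by_cases e' : j = k
    · exact h.2.2.2 (j + 1) (by omega) (by omega) e.2
    · exact h.2.2.2 j (by omega) (by omega) e.1

lemma travR {a k k' : ℕ} (h : Cons op k k') (h1 : k + 1 < k') (h2 : k' < n)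
    (G : Gr (OK2 F (hub n c)) a (2 * k + 1) (2 * k + 1) false) :
    Gr (OK2 F (hub n c)) a (2 * k') (2 * k') false :=
  stretchR0 X.fl.pm X.pmH (by omega) (2 * k' - (2 * k + 1)) _ (by omega) (X.frzS h h1 h2)
    (Or.inr (by rw [X.fl.cons k k' h2 h]; omega)) G

lemma travL {b k k' : ℕ} (h : Cons op k k') (h1 : k + 1 < k') (h2 : k' < n)
    (G : Gr (OK2 F (hub n c)) (2 * k') b (2 * k') false) :
    Gr (OK2 F (hub n c)) (2 * k + 1) b (2 * k + 1) false :=
  stretchL0 X.fl.pm X.pmH (2 * k' - (2 * k + 1)) _ (by omega) (by omega) (X.frzS h h1 h2)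
    (Or.inr fun e => by
      have a1 := X.fl.pm.symm (by omega) e
      have a2 := X.fl.pm.symm (by omega) (X.fl.cons k k' h2 h)
      omega) G

lemma frzB (h : c < n) : Frozen F (hub n c) (2 * c) (2 * c + 3) := by
  have hn := X.hn
  obtain ⟨d1, d2, d3, d4⟩ := X.hc.resolve_left (by omega)
  intro i a b
  have := hub_val n c i
  obtain rfl | rfl | rfl : i = 2 * c ∨ i = 2 * c + 1 ∨ i = 2 * (c + 1) := by omega
  · rw [X.fl.arc_even (by omega) c h]
    exact iff_of_false (fun e => e d3) (by omega)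
  · rw [show 2 * c + 1 + 1 = 2 * c + 2 from rfl, X.fl.arc_odd c (by omega)]
    exact iff_of_true ⟨d3, d4⟩ (by omega)
  · rw [X.fl.arc_even (by omega) (c + 1) (by omega)]
    exact iff_of_false (fun e => e d4) (by omega)

lemma blkR {a : ℕ} (h : c < n) (G : Gr (OK2 F (hub n c)) a (2 * c) (2 * c) false) :
    Gr (OK2 F (hub n c)) a (2 * c + 3) (2 * c + 3) false := by
  have hn := X.hn
  obtain ⟨d1, d2, d3, d4⟩ := X.hc.resolve_left (by omega)
  exact stretchR0 X.fl.pm X.pmH (by omega) 3 _ rfl (X.frzB h)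
    (Or.inr fun e => (X.fl.arc_even (by omega) c h).1 e d3) G

lemma blkL {b : ℕ} (h : c < n) (G : Gr (OK2 F (hub n c)) (2 * c + 3) b (2 * c + 3) false) :
    Gr (OK2 F (hub n c)) (2 * c) b (2 * c) false := by
  have hn := X.hn
  obtain ⟨d1, d2, d3, d4⟩ := X.hc.resolve_left (by omega)
  exact stretchL0 X.fl.pm X.pmH 3 _ rfl (by omega) (X.frzB h)
    (Or.inr fun e => (X.fl.arc_even (by omega) (c + 1) (by omega)).1 e d4) G

end Ctx

/-- The state of the growth on the points between the open cells `p` and `q`. -/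
def St (ok : ℕ → ℕ → Prop) (op : ℕ → Prop) (p q : ℕ) : Prop :=
  ((∃ j, op j ∧ p < j ∧ j < q) ∧ ((∃ b l, b + 1 = 2 * q ∧ Gr ok (2 * p + 1) b (2 * p + 1) l) ∨
    ∃ l, Gr ok (2 * p + 1 + 1) (2 * q) (2 * q) l)) ∨
  Gr ok (2 * p + 1) (2 * q) (2 * p + 1) false ∨ Gr ok (2 * p + 1) (2 * q) (2 * q) false

namespace Ctx

variable {n : ℕ} {op : ℕ → Prop} {F : ℕ → ℕ} {c : ℕ} (X : Ctx n op F c)
include X

lemma round {p p' q' q : ℕ} (h1 : Cons op p p') (h2 : Cons op q' q) (hq : q < n) (hl : p' < q')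
    (hc : n ≤ c ∨ (p' < c ∧ c + 1 < q')) (S : St (OK2 F (hub n c)) op p' q') :
    St (OK2 F (hub n c)) op p q := by
  have a1 := h1.1
  have a2 := h2.1
  have op1 := h1.2.1
  have op2 := h1.2.2.1
  have op3 := h2.2.1
  have op4 := h2.2.2.1
  have ex : ∃ j, op j ∧ p < j ∧ j < q := ⟨p', op2, a1, by omega⟩
  have S' : Gr (OK2 F (hub n c)) (2 * p' + 1) (2 * q') (2 * p' + 1) false ∨
      Gr (OK2 F (hub n c)) (2 * p' + 1) (2 * q') (2 * q') false := by
    rcases S with ⟨j, ⟨b, l, e, G⟩ | ⟨l, G⟩⟩ | G | G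
    · rw [← e]
      refine Or.inr (G.spR ?_)
      rw [e]
      exact X.ok p' q' (by omega) (by omega) op2 op3 (by omega) (by omega) (by omega) (by omega)
        (by omega) (Or.inr (Or.inr j))
    · exact Or.inl (G.spL (X.ok p' q' (by omega) (by omega) op2 op3 (by omega) (by omega)
        (by omega) (by omega) (by omega) (Or.inr (Or.inr j))))
    · exact Or.inl G
    · exact Or.inr G
  have k1 : OK2 F (hub n c) (2 * p') (2 * q') :=
    X.ok p' q' (by omega) (by omega) op2 op3 (by omega) (by omega) (by omega) (by omega) (by omega)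
      (by omega)
  have k2 : OK2 F (hub n c) (2 * p' + 1) (2 * q' + 1) :=
    X.ok p' q' (by omega) (by omega) op2 op3 (by omega) (by omega) (by omega) (by omega) (by omega)
      (by omega)
  have k3 : OK2 F (hub n c) (2 * p') (2 * q' + 1) :=
    X.ok p' q' (by omega) (by omega) op2 op3 (by omega) (by omega) (by omega) (by omega) (by omega)
      (by omega)
  have k4 : OK2 F (hub n c) (2 * p + 1) (2 * q' + 1) :=
    X.ok p q' (by omega) (by omega) op1 op3 (by omega) (by omega) (by omega) (by omega) (by omega)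
      (by omega)
  have k5 : OK2 F (hub n c) (2 * p') (2 * q) :=
    X.ok p' q (by omega) (by omega) op2 op4 (by omega) (by omega) (by omega) (by omega) (by omega)
      (by omega)
  by_cases t1 : p' = p + 1 <;> by_cases t2 : q = q' + 1
  · subst t1 t2
    rcases S' with G | G
    · exact Or.inl ⟨ex, Or.inr ⟨_, ((G.spR k2).spL k3).spR k5⟩⟩
    · exact Or.inl ⟨ex, Or.inl ⟨_, _, by omega, Gr.spL (a := 2 * p + 1) ((G.spL k1).spR k3) k4⟩⟩
  · subst t1
    rcases S' with G | G
    · exact Or.inl ⟨ex, Or.inr ⟨_, (X.travR h2 (by omega) hq (G.spR k2)).legL k5⟩⟩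
    · exact Or.inl ⟨ex, Or.inr ⟨_, X.travR h2 (by omega) hq ((G.spL k1).spR k3)⟩⟩
  · subst t2
    rcases S' with G | G
    · exact Or.inl ⟨ex, Or.inl ⟨_, _, by omega,
        X.travL h1 (by omega) (by omega) ((G.spR k2).spL k3)⟩⟩
    · exact Or.inl ⟨ex, Or.inl ⟨_, _, by omega,
        (X.travL h1 (by omega) (by omega) (G.spL k1)).legR k4⟩⟩
  · rcases S' with G | G
    · exact Or.inr (Or.inl (X.travL h1 (by omega) (by omega)
        ((X.travR h2 (by omega) hq (G.spR k2)).spL k5)))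
    · exact Or.inr (Or.inr (X.travR h2 (by omega) hq
        ((X.travL h1 (by omega) (by omega) (G.spL k1)).spR k4)))

lemma base2 {p k q : ℕ} (h1 : Cons op p k) (h2 : Cons op k q) (hq : q < n) (hc : n ≤ c)
    (ht : p + 1 < k ∨ k + 1 < q) : St (OK2 F (hub n c)) op p q := by
  have a1 := h1.1
  have a2 := h2.1
  have ex : ∃ j, op j ∧ p < j ∧ j < q := ⟨k, h1.2.2.1, a1, a2⟩
  by_cases t1 : k = p + 1
  · subst t1
    exact Or.inl ⟨ex, Or.inr ⟨_, (X.travR h2 (by omega) hq (.start _)).legL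
      (X.ok (p + 1) q (by omega) (by omega) h2.2.1 h2.2.2.1 (by omega) (by omega) (by omega)
        (by omega) (by omega) (by omega))⟩⟩
  have G := X.travL h1 (by omega) (by omega) (.start _)
  have k1 : OK2 F (hub n c) (2 * p + 1) (2 * k + 1) :=
    X.ok p k (by omega) (by omega) h1.2.1 h1.2.2.1 (by omega) (by omega) (by omega) (by omega)
      (by omega) (by omega)
  by_cases t2 : q = k + 1
  · exact Or.inl ⟨ex, Or.inl ⟨_, _, by omega, G.legR k1⟩⟩
  · exact Or.inr (Or.inr (X.travR h2 (by omega) hq (G.spR k1)))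

lemma base3 {p q : ℕ} (h1 : Cons op p c) (h2 : Cons op (c + 1) q) (hq : q < n) :
    St (OK2 F (hub n c)) op p q := by
  have a1 := h1.1
  have a2 := h2.1
  have ex : ∃ j, op j ∧ p < j ∧ j < q := ⟨c, h1.2.2.1, a1, by omega⟩
  by_cases t1 : c = p + 1 <;> by_cases t2 : q = c + 2
  · refine Or.inl ⟨ex, Or.inl ⟨2 * c + 3, false, by omega, Gr.spL (h := 2 * c + 3) (l := false) ?_
      (X.ok p (c + 1) (by omega) (by omega) h1.2.1 h2.2.1 (by omega) (by omega) (by omega)
        (by omega) (by omega) (by omega))⟩⟩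
    rw [show 2 * p + 1 + 1 = 2 * c by omega]
    exact X.blkR (by omega) (.start _)
  · refine Or.inl ⟨ex, Or.inr ⟨false, ?_⟩⟩
    rw [show 2 * p + 1 + 1 = 2 * c by omega]
    exact X.travR h2 (by omega) hq (X.blkR (by omega) (.start _))
  · exact Or.inl ⟨ex, Or.inl ⟨2 * c + 3, false, by omega,
      X.travL h1 (by omega) (by omega) (X.blkL (by omega) (.start _))⟩⟩
  · exact Or.inr (Or.inr (X.travR h2 (by omega) hq
      (X.blkR (by omega) (X.travR h1 (by omega) (by omega) (.start _)))))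

lemma base4 {p q : ℕ} (h1 : Cons op p c) (h2 : Cons op (c + 2) q) (hq : q < n)
    (ht : c = p + 1 ∨ c + 3 < q) : St (OK2 F (hub n c)) op p q := by
  have a1 := h1.1
  have a2 := h2.1
  have ex : ∃ j, op j ∧ p < j ∧ j < q := ⟨c, h1.2.2.1, a1, by omega⟩
  have G := X.blkL (by omega) (.start _)
  have k1 : OK2 F (hub n c) (2 * c) (2 * c + 3 + 1) :=
    X.ok c (c + 2) (by omega) (by omega) h1.2.2.1 h2.2.1 (by omega) (by omega) (by omega)
      (by omega) (by omega) (by omega)
  have k2 : OK2 F (hub n c) (2 * p + 1) (2 * c + 3 + 1 + 1) :=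
    X.ok p (c + 2) (by omega) (by omega) h1.2.1 h2.2.1 (by omega) (by omega) (by omega)
      (by omega) (by omega) (by omega)
  by_cases t2 : q = c + 3
  · have t1 : c = p + 1 := by omega
    have k3 : OK2 F (hub n c) (2 * c) (2 * c + 3 + 1 + 1) :=
      X.ok c (c + 2) (by omega) (by omega) h1.2.2.1 h2.2.1 (by omega) (by omega) (by omega)
        (by omega) (by omega) (by omega)
    refine Or.inl ⟨ex, Or.inl ⟨2 * c + 3 + 1 + 1, false, by omega, Gr.spL (l := false) ?_ k2⟩⟩
    rw [show 2 * p + 1 + 1 = 2 * c by omega]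
    exact (G.legR k1).spR k3
  have k4 : OK2 F (hub n c) (2 * p + 1) (2 * c + 3 + 1) :=
    X.ok p (c + 2) (by omega) (by omega) h1.2.1 h2.2.1 (by omega) (by omega) (by omega)
      (by omega) (by omega) (Or.inr (Or.inr ⟨c, h1.2.2.1, a1, by omega⟩))
  refine Or.inr (Or.inr (X.travR h2 (by omega) hq ?_))
  by_cases t1 : c = p + 1
  · refine Gr.spR (b := 2 * c + 3 + 1) (Gr.spL (l := false) ?_ k4) k2
    rw [show 2 * p + 1 + 1 = 2 * c by omega]
    exact G.spR k1
  · exact Gr.spR (b := 2 * c + 3 + 1) ((X.travL h1 (by omega) (by omega) G).legR k4) k2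

lemma base4' {p k : ℕ} (hk : c = k + 1) (h1 : Cons op p k) (o1 : op (k + 1)) (o3 : op (k + 3))
    (hq : k + 3 < n) (ht : p + 1 < k) : St (OK2 F (hub n c)) op p (k + 3) := by
  subst hk
  obtain ⟨d1, d2, d3, d4⟩ := X.hc.resolve_left (by omega)
  have G := X.blkR (by omega) (.start _)
  have k1 : OK2 F (hub n (k + 1)) (2 * k + 1) (2 * (k + 1) + 3) :=
    X.ok k (k + 2) (by omega) (by omega) h1.2.2.1 d4 (by omega) (by omega) (by omega)
      (by omega) (by omega) (by omega)
  have k2 : OK2 F (hub n (k + 1)) (2 * k + 1) (2 * (k + 1) + 3 + 1) :=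
    X.ok k (k + 3) (by omega) (by omega) h1.2.2.1 o3 (by omega) (by omega) (by omega)
      (by omega) (by omega) (Or.inr (Or.inr ⟨k + 1, o1, by omega, by omega⟩))
  have k3 : OK2 F (hub n (k + 1)) (2 * k) (2 * (k + 1) + 3 + 1) :=
    X.ok k (k + 3) (by omega) (by omega) h1.2.2.1 o3 (by omega) (by omega) (by omega)
      (by omega) (by omega) (by omega)
  exact Or.inr (Or.inl (X.travL h1 ht (by omega) (((Gr.spL (a := 2 * k + 1) G k1).spR k2).spL k3)))

lemma finish (S : St (OK2 F (hub n c)) op 0 (n - 1)) : Near (2 * n) F (hub n c) := by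
  have hn := X.hn
  have f0 := X.fl.f0
  have g0 : hub n c 0 = 2 * n - 1 := by have := hub_val n c 0; omega
  have g1 : hub n c 1 = 2 * n - 2 := by have := hub_val n c 1; omega
  have g2 : hub n c (2 * n - 2) = 1 := by have := hub_val n c (2 * n - 2); omega
  have f1 := X.fl.pm.under (by omega) f0 1 (by omega) (by omega)
  have f2 := X.fl.pm.under (by omega) f0 (2 * n - 2) (by omega) (by omega)
  have k1 : OK2 F (hub n c) 0 (0 + 1) := ok_arc (by omega) (by omega)
  have k2 : OK2 F (hub n c) (2 * n - 2) (2 * n - 2 + 1) := ok_arc (by omega) (by omega)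
  have k3 : OK2 F (hub n c) 0 (2 * n - 2) :=
    ⟨⟨by omega, fun i a b => by have := X.fl.pm.under (by omega) f0 i a (by omega); omega⟩,
      by omega, fun i a b => by have := X.pmH.under (by omega) g0 i a (by omega); omega⟩
  have k4 : OK2 F (hub n c) 1 (2 * n - 2 + 1) :=
    ⟨⟨by omega, fun i a b => by have := X.fl.pm.under (by omega) f0 i (by omega) (by omega); omega⟩,
      by omega, fun i a b => by have := X.pmH.under (by omega) g0 i (by omega) (by omega); omega⟩
  have fin : ∀ h l, Gr (OK2 F (hub n c)) 0 (2 * n - 2 + 1) h l → Near (2 * n) F (hub n c) :=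
    fun h l G => Gr.near (h := h) (l := l) (by omega) X.fl.pm X.pmH
      (by rwa [show 2 * n - 1 = 2 * n - 2 + 1 by omega])
  unfold St at S
  rw [show 2 * (n - 1) = 2 * n - 2 by omega] at S
  rcases S with ⟨-, ⟨b, l, e, G⟩ | ⟨l, G⟩⟩ | G | G
  · have G1 := (Gr.spL (a := 0) G k1).spR (e ▸ k3)
    rw [e] at G1
    exact fin _ _ (G1.spR k2)
  · exact fin _ _ (Gr.spL (a := 0) (Gr.spL (a := 1) (G.spR k2) k4) k1)
  · exact fin _ _ ((Gr.legL (a := 0) G k1).spR k4)
  · exact fin _ _ (Gr.spL (a := 0) (G.legR k2) k3)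

end Ctx

lemma spin_aux {n op F} (hF : IsFl n op F) (hn : 4 ≤ n) : ∀ d p q, p + d = q → q < n → op p →
    op q → p + 1 < q → (q = p + 2 → ¬ op (p + 1)) →
    ∃ c, Ctx n op F c ∧ (n ≤ c ∨ (p < c ∧ c + 1 < q)) ∧ St (OK2 F (hub n c)) op p q := by
  intro d
  induction d using Nat.strong_induction_on with
  | _ d ih =>
    intro p q hd hq o1 o2 h1 h2
    have X0 : Ctx n op F n := ⟨hF, hn, Or.inl le_rfl⟩
    obtain ⟨p', a1, c1⟩ := exists_next o1 o2 (by omega)
    obtain ⟨q', a2, c2⟩ := exists_prev o2 o1 (by omega)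
    have b1 := c1.1
    have b2 := c2.1
    by_cases e1 : p' = q
    · subst e1
      exact ⟨n, X0, Or.inl le_rfl, Or.inr (Or.inr (X0.travR c1 h1 hq (.start _)))⟩
    have a3 : p' ≤ q' := c2.le_l c1.2.2.1 (by omega)
    by_cases e2 : p' = q'
    · subst e2
      refine ⟨n, X0, Or.inl le_rfl, X0.base2 c1 c2 hq le_rfl ?_⟩
      by_contra hn'
      exact h2 (by omega) (by rw [show p + 1 = p' by omega]; exact c1.2.2.1)
    by_cases e3 : q' = p' + 1
    · subst e3
      have X : Ctx n op F p' := ⟨hF, hn, Or.inr ⟨by omega, by omega, c1.2.2.1, c2.2.1⟩⟩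
      exact ⟨p', X, Or.inr (by omega), X.base3 c1 c2 hq⟩
    by_cases e4 : q' = p' + 2 ∧ op (p' + 1)
    · obtain ⟨rfl, o3⟩ := e4
      by_cases e5 : p' = p + 1 ∨ p' + 3 < q
      · have X : Ctx n op F p' := ⟨hF, hn, Or.inr ⟨by omega, by omega, c1.2.2.1, o3⟩⟩
        exact ⟨p', X, Or.inr (by omega), X.base4 c1 c2 hq e5⟩
      · have X : Ctx n op F (p' + 1) := ⟨hF, hn, Or.inr ⟨by omega, by omega, o3, c2.2.1⟩⟩
        obtain rfl : q = p' + 3 := by omega
        exact ⟨p' + 1, X, Or.inr (by omega), X.base4' rfl c1 o3 o2 hq (by omega)⟩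
    obtain ⟨c, X, hc, S⟩ := ih (q' - p') (by omega) p' q' (by omega) (by omega) c1.2.2.1 c2.2.1
      (by omega) (fun a b => e4 ⟨a, b⟩)
    exact ⟨c, X, by omega, X.round c1 c2 hq (by omega) hc S⟩

theorem spin {n op F} (hF : IsFl n op F) (hn : 4 ≤ n) :
    ∃ c, (n ≤ c ∨ (1 ≤ c ∧ c + 3 ≤ n)) ∧ Near (2 * n) F (hub n c) := by
  obtain ⟨c, X, hc, S⟩ := spin_aux hF hn (n - 1) 0 (n - 1) (by omega) (by omega) hF.op0 hF.opl
    (by omega) (by omega)
  exact ⟨c, by omega, X.finish S⟩

end Pool.Agent.P.MP_d44d06_co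
end

-- part Pool.Agent.P.MP_d44d06_co.Main
section

/-! Every matching is within seven moves of the even perimeter matching. -/

namespace Pool.Agent.P.MP_d44d06_co

lemma cell_val (x : ℕ) : (x % 2 = 0 ∧ cell x = x + 1) ∨ (x % 2 = 1 ∧ cell x + 1 = x) := by
  unfold cell; split_ifs <;> omega

lemma cell_pm (n : ℕ) : PM (2 * n) cell := by
  refine ⟨fun i hi => ?_, fun i hi => ?_, fun i hi => ?_, fun i j hi hj => ?_⟩
  · have := cell_val i; omega
  · have := cell_val i; have := cell_val (cell i); omega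
  · have := cell_val i; omega
  · have := cell_val i; have := cell_val j; omega

lemma hub1_val (c x : ℕ) : (2 * c ≤ x ∧ x ≤ 2 * c + 3 ∧ hub1 c x = 4 * c + 3 - x) ∨
    ((x < 2 * c ∨ 2 * c + 3 < x) ∧
      ((x % 2 = 0 ∧ hub1 c x = x + 1) ∨ (x % 2 = 1 ∧ hub1 c x + 1 = x))) := by
  unfold hub1 cell; split_ifs <;> omega

lemma hub1_pm {n c} (hc : c + 2 ≤ n) : PM (2 * n) (hub1 c) := by
  refine ⟨fun i hi => ?_, fun i hi => ?_, fun i hi => ?_, fun i j hi hj => ?_⟩
  · have := hub1_val c i; omega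
  · have := hub1_val c i; have := hub1_val c (hub1 c i); omega
  · have := hub1_val c i; omega
  · have := hub1_val c i; have := hub1_val c j; omega

lemma sh_val (m r i : ℕ) : (i + r < m ∧ sh m r i = i + r) ∨ (m ≤ i + r ∧ sh m r i = i + r - m) := by
  unfold sh; split_ifs <;> omega

/-- Removing a block, seen from an arbitrary starting point. -/
lemma remove_at {m f g s} (hm : 12 ≤ m) (hs : s ≤ m) (hf : PM m f) (hg : PM m g)
    (f0 : f (sh m s 0) = sh m s (m - 1)) (f1 : f (sh m s 1) = sh m s 2)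
    (f3 : f (sh m s 3) = sh m s 4) (f5 : f (sh m s 5) = sh m s 6) (f7 : f (sh m s 7) = sh m s 10)
    (f8 : f (sh m s 8) = sh m s 9) (g7 : g (sh m s 7) = sh m s 8) (g9 : g (sh m s 9) = sh m s 10)
    (go : ∀ j, j < m → j < 7 ∨ 10 < j → g (sh m s j) = f (sh m s j)) : Reach m 2 f g := by
  refine Reach.of_rot hs hf hg ((remove_block hm (hf.rot hs)
    ((rot_eq_iff hf hs (by omega) (by omega)).2 f0) ((rot_eq_iff hf hs (by omega) (by omega)).2 f1)
    ((rot_eq_iff hf hs (by omega) (by omega)).2 f3) ((rot_eq_iff hf hs (by omega) (by omega)).2 f5)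
    ((rot_eq_iff hf hs (by omega) (by omega)).2 f7)
    ((rot_eq_iff hf hs (by omega) (by omega)).2 f8)).congr (fun _ _ => rfl) fun i hi => ?_)
  have a7 := (rot_eq_iff hg hs (by omega) (by omega)).2 g7
  have a9 := (rot_eq_iff hg hs (by omega) (by omega)).2 g9
  have a8 := (hg.rot hs).symm (by omega) a7
  have a10 := (hg.rot hs).symm (by omega) a9
  by_cases c : 7 ≤ i ∧ i ≤ 10
  · rw [if_pos c]
    obtain rfl | rfl | rfl | rfl : i = 7 ∨ i = 8 ∨ i = 9 ∨ i = 10 := by omega
    all_goals simp [*]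
  · rw [if_neg c]
    unfold rot
    rw [go i hi (by omega)]

lemma hub1_reach {n c} (hn : 6 ≤ n) (hc : c + 2 ≤ n) : Reach (2 * n) 2 (hub1 c) cell := by
  obtain ⟨s, hs, hs'⟩ : ∃ s, s ≤ 2 * n ∧ (s + 7 = 2 * c ∨ s + 7 = 2 * c + 2 * n) := by
    by_cases h : 4 ≤ c
    · exact ⟨2 * c - 7, by omega, by omega⟩
    · exact ⟨2 * c + 2 * n - 7, by omega, by omega⟩
  refine remove_at (s := s) (by omega) hs (hub1_pm hc) (cell_pm n) ?_ ?_ ?_ ?_ ?_ ?_ ?_ ?_
    fun j a b => ?_
  · have := sh_val (2 * n) s 0; have := sh_val (2 * n) s (2 * n - 1)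
    have := hub1_val c (sh (2 * n) s 0); omega
  · have := sh_val (2 * n) s 1; have := sh_val (2 * n) s 2
    have := hub1_val c (sh (2 * n) s 1); omega
  · have := sh_val (2 * n) s 3; have := sh_val (2 * n) s 4
    have := hub1_val c (sh (2 * n) s 3); omega
  · have := sh_val (2 * n) s 5; have := sh_val (2 * n) s 6
    have := hub1_val c (sh (2 * n) s 5); omega
  · have := sh_val (2 * n) s 7; have := sh_val (2 * n) s 10
    have := hub1_val c (sh (2 * n) s 7); omega
  · have := sh_val (2 * n) s 8; have := sh_val (2 * n) s 9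
    have := hub1_val c (sh (2 * n) s 8); omega
  · have := sh_val (2 * n) s 7; have := sh_val (2 * n) s 8
    have := cell_val (sh (2 * n) s 7); omega
  · have := sh_val (2 * n) s 9; have := sh_val (2 * n) s 10
    have := cell_val (sh (2 * n) s 9); omega
  · have := sh_val (2 * n) s j
    have := cell_val (sh (2 * n) s j); have := hub1_val c (sh (2 * n) s j); omega

/-- Removing the outer block. -/
lemma hub_outer {n c g} (hn : 6 ≤ n) (hc : n ≤ c ∨ (1 ≤ c ∧ c + 7 ≤ n)) (hg : PM (2 * n) g)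
    (e : ∀ x, x < 2 * n → g x = hub1 c x) : Reach (2 * n) 2 (hub n c) g := by
  obtain ⟨s, hs⟩ : ∃ s, s + 9 = 2 * n := ⟨2 * n - 9, by omega⟩
  refine remove_at (s := s) (by omega) (by omega) (hub_pm (by omega) (by omega)) hg
    ?_ ?_ ?_ ?_ ?_ ?_ ?_ ?_ fun j a b => ?_
  · have := sh_val (2 * n) s 0; have := sh_val (2 * n) s (2 * n - 1)
    have := hub_val n c (sh (2 * n) s 0); omega
  · have := sh_val (2 * n) s 1; have := sh_val (2 * n) s 2
    have := hub_val n c (sh (2 * n) s 1); omega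
  · have := sh_val (2 * n) s 3; have := sh_val (2 * n) s 4
    have := hub_val n c (sh (2 * n) s 3); omega
  · have := sh_val (2 * n) s 5; have := sh_val (2 * n) s 6
    have := hub_val n c (sh (2 * n) s 5); omega
  · have := sh_val (2 * n) s 7; have := sh_val (2 * n) s 10
    have := hub_val n c (sh (2 * n) s 7); omega
  · have := sh_val (2 * n) s 8; have := sh_val (2 * n) s 9
    have := hub_val n c (sh (2 * n) s 8); omega
  · have := sh_val (2 * n) s 7; have := sh_val (2 * n) s 8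
    rw [e _ (by omega)]; have := hub1_val c (sh (2 * n) s 7); omega
  · have := sh_val (2 * n) s 9; have := sh_val (2 * n) s 10
    rw [e _ (by omega)]; have := hub1_val c (sh (2 * n) s 9); omega
  · have := sh_val (2 * n) s j
    rw [e _ (by omega)]
    have := hub1_val c (sh (2 * n) s j); have := hub_val n c (sh (2 * n) s j); omega

/-- Removing the inner block. -/
lemma hub_inner {n c} (hc : 5 ≤ c ∧ c + 3 ≤ n) : Reach (2 * n) 2 (hub n c) (hub n n) := by
  obtain ⟨s, hs⟩ : ∃ s, s + 7 = 2 * c := ⟨2 * c - 7, by omega⟩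
  refine remove_at (s := s) (by omega) (by omega) (hub_pm (by omega) (by omega))
    (hub_pm (by omega) (by omega)) ?_ ?_ ?_ ?_ ?_ ?_ ?_ ?_ fun j a b => ?_
  · have := sh_val (2 * n) s 0; have := sh_val (2 * n) s (2 * n - 1)
    have := hub_val n c (sh (2 * n) s 0); omega
  · have := sh_val (2 * n) s 1; have := sh_val (2 * n) s 2
    have := hub_val n c (sh (2 * n) s 1); omega
  · have := sh_val (2 * n) s 3; have := sh_val (2 * n) s 4
    have := hub_val n c (sh (2 * n) s 3); omega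
  · have := sh_val (2 * n) s 5; have := sh_val (2 * n) s 6
    have := hub_val n c (sh (2 * n) s 5); omega
  · have := sh_val (2 * n) s 7; have := sh_val (2 * n) s 10
    have := hub_val n c (sh (2 * n) s 7); omega
  · have := sh_val (2 * n) s 8; have := sh_val (2 * n) s 9
    have := hub_val n c (sh (2 * n) s 8); omega
  · have := sh_val (2 * n) s 7; have := sh_val (2 * n) s 8
    have := hub_val n n (sh (2 * n) s 7); omega
  · have := sh_val (2 * n) s 9; have := sh_val (2 * n) s 10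
    have := hub_val n n (sh (2 * n) s 9); omega
  · have := sh_val (2 * n) s j
    have := hub_val n n (sh (2 * n) s j); have := hub_val n c (sh (2 * n) s j); omega

lemma hub_none {n c} (hn : 6 ≤ n) (hc : n ≤ c) : Reach (2 * n) 2 (hub n c) cell :=
  hub_outer hn (Or.inl hc) (cell_pm n) fun x hx => by
    have := cell_val x; have := hub1_val c x; omega

lemma hub_reach {n c} (hn : 11 ≤ n) (hc : n ≤ c ∨ (1 ≤ c ∧ c + 3 ≤ n)) :
    Reach (2 * n) 4 (hub n c) cell := by
  by_cases h1 : n ≤ c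
  · exact (hub_none (by omega) h1).mono _ (by omega)
  by_cases h2 : 5 ≤ c
  · exact (hub_inner (by omega)).trans (hub_none (by omega) le_rfl)
  · exact (hub_outer (by omega) (by omega) (hub1_pm (by omega)) fun _ _ => rfl).trans
      (hub1_reach (by omega) (by omega))

lemma exists_arc {m f} (hm : 0 < m) (hf : PM m f) : ∃ i, i + 1 < m ∧ f i = i + 1 := by
  have : ∀ d i, i < m → f i = i + d → 0 < d → ∃ i, i + 1 < m ∧ f i = i + 1 := by
    intro d
    induction d using Nat.strong_induction_on with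
    | _ d ih =>
      intro i hi e hd
      have b := hf.lt i hi
      by_cases c : d = 1
      · exact ⟨i, by omega, by omega⟩
      have a := hf.under hi e (i + 1) (by omega) (by omega)
      have := hf.ne (i + 1) (by omega)
      exact ih (f (i + 1) - (i + 1)) (by omega) (i + 1) (by omega) (by omega) (by omega)
  have h0 := hf.ne 0 hm
  exact this (f 0) 0 hm (by omega) (by omega)

lemma rot_last {m f i} (hf : PM m f) (hi : i + 1 < m) (e : f i = i + 1) :
    rot m (i + 1) f 0 = m - 1 := by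
  rw [rot_eq_iff hf (by omega) (by omega) (by omega)]
  have a := sh_val m (i + 1) 0
  have b := sh_val m (i + 1) (m - 1)
  rw [show sh m (i + 1) 0 = i + 1 by omega, hf.symm (by omega) e]
  omega

lemma reach_frame {n f} (hn : 4 ≤ n) (hh : ∀ c, (n ≤ c ∨ (1 ≤ c ∧ c + 3 ≤ n)) →
    Reach (2 * n) 4 (hub n c) cell) (hf : PM (2 * n) f) (f0 : f 0 = 2 * n - 1) :
    Reach (2 * n) 7 f cell := by
  obtain ⟨op, F, g, hF, hR, -⟩ := to_flower (by omega) hf f0
  obtain ⟨c, hc, hN⟩ := spin hF hn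
  exact hR.trans ((Near.reach (hub_pm (by omega) hc) hN).trans (hh c hc))

theorem reach_cell {n f} (hn : 4 ≤ n) (hh : ∀ c, (n ≤ c ∨ (1 ≤ c ∧ c + 3 ≤ n)) →
    Reach (2 * n) 4 (hub n c) cell) (hh1 : ∀ c, c + 2 ≤ n → Reach (2 * n) 4 (hub1 c) cell)
    (hf : PM (2 * n) f) : Reach (2 * n) 7 f cell := by
  by_cases f0 : f 0 = 2 * n - 1
  · exact reach_frame hn hh hf f0
  by_cases h : ∃ j, 2 * j + 2 < 2 * n ∧ f (2 * j + 1) = 2 * j + 2
  · obtain ⟨j, a, b⟩ := h
    refine Reach.of_rot (r := 2 * j + 1 + 1) (by omega) hf (cell_pm n)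
      ((reach_frame hn hh (hf.rot (by omega)) (rot_last hf a b)).congr (fun _ _ => rfl)
        fun i hi => ?_)
    rw [rot_eq_iff (cell_pm n) (by omega) hi ((cell_pm n).lt i hi)]
    have := cell_val i
    have := sh_val (2 * n) (2 * j + 1 + 1) i
    have := sh_val (2 * n) (2 * j + 1 + 1) (cell i)
    have := cell_val (sh (2 * n) (2 * j + 1 + 1) i)
    omega
  obtain ⟨i, a, b⟩ := exists_arc (by omega) hf
  obtain ⟨j, rfl | rfl⟩ := Nat.even_or_odd' i
  swap
  · exact absurd ⟨j, a, b⟩ h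
  have hr : 2 * j + 1 ≤ 2 * n := by omega
  obtain ⟨op, F, g, hF, hR, ho⟩ := to_flower (by omega) (hf.rot hr) (rot_last hf a b)
  have ho' : ∀ k, k < n → (op k ↔ k ≠ g) := fun k hk => by
    rw [ho]
    refine and_iff_right fun e => ?_
    rw [rot_eq_iff hf hr (by omega) (by omega)] at e
    have s1 := sh_val (2 * n) (2 * j + 1) (2 * k)
    have s2 := sh_val (2 * n) (2 * j + 1) (2 * k + 1)
    by_cases c : sh (2 * n) (2 * j + 1) (2 * k) = 2 * n - 1
    · rw [c, show sh (2 * n) (2 * j + 1) (2 * k + 1) = 0 by omega] at e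
      exact f0 (hf.symm (by omega) e)
    · refine h ⟨sh (2 * n) (2 * j + 1) (2 * k) / 2, by omega, ?_⟩
      rw [show 2 * (sh (2 * n) (2 * j + 1) (2 * k) / 2) + 1 = sh (2 * n) (2 * j + 1) (2 * k) by omega,
        e]
      omega
  have g0 : g ≠ 0 := fun e => (ho' 0 (by omega)).1 hF.op0 e.symm
  have gl : g ≠ n - 1 := fun e => (ho' (n - 1) (by omega)).1 hF.opl e.symm
  have hc := (cell_pm n).rot hr
  have Fv : ∀ x, x < 2 * n → x % 2 = 1 → (x = 2 * n - 1 ∧ F x = 0) ∨ (x / 2 = g ∧ F x + 1 = x) ∨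
      (x / 2 + 1 = g ∧ F x = x + 3 ∧ x + 1 < 2 * n) ∨ (x / 2 ≠ g ∧ x / 2 + 1 ≠ g ∧ F x = x + 1 ∧ x + 1 < 2 * n) := by
    intro x hx h1
    obtain ⟨k, rfl⟩ : ∃ k, x = 2 * k + 1 := ⟨x / 2, by omega⟩
    by_cases c1 : k = n - 1
    · have := hF.pm.symm (by omega) hF.f0
      rw [show 2 * k + 1 = 2 * n - 1 by omega]; omega
    by_cases c2 : k = g
    · have := hF.pm.symm (by omega) (hF.cl k (by omega) fun e => (ho' k (by omega)).1 e c2)
      omega
    by_cases c3 : k + 1 = g
    · have := hF.cons k (k + 2) (by omega) ⟨by omega, (ho' _ (by omega)).2 c2,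
        (ho' _ (by omega)).2 (by omega), fun i a b e => (ho' _ (by omega)).1 e (by omega)⟩
      omega
    · have := (hF.arc_odd k (by omega)).2 ⟨(ho' _ (by omega)).2 c2, (ho' _ (by omega)).2 c3⟩
      omega
  have key : ∀ G, PM (2 * n) G → (∀ x, x < 2 * n → x % 2 = 0 → G x % 2 = 1 ∧
      rot (2 * n) 1 F x = G x) → ∀ x, x < 2 * n → rot (2 * n) 1 F x = G x := by
    intro G hG e x hx
    by_cases c : x % 2 = 0
    · exact (e x hx c).2
    · have p := hF.pm.rot (r := 1) (by omega)
      have q : rot (2 * n) 1 F x % 2 = 0 := by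
        by_contra d
        have a1 := sh_val (2 * n) 1 x
        have a2 := (rot_eq_iff hF.pm (r := 1) (by omega) hx (p.lt x hx)).1 rfl
        have a3 := sh_val (2 * n) 1 (rot (2 * n) 1 F x)
        have a4 := p.lt x hx
        rcases hF.val (sh (2 * n) 1 x) (by omega) with v | ⟨v, -⟩ | ⟨-, k', -, v⟩ | v | v
        · omega
        · omega
        · omega
        · rw [v, hF.f0] at a2; omega
        · omega
      have := (e _ (p.lt x hx) q).2
      rw [p.inv x hx] at this
      exact (hG.symm (p.lt x hx) this.symm).symm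
  have hcc : ∀ i, i < 2 * n → rot (2 * n) 1 (rot (2 * n) (2 * j + 1) cell) i = cell i := by
    intro i hi
    rw [rot_eq_iff hc (by omega) hi ((cell_pm n).lt i hi),
      rot_eq_iff (cell_pm n) hr (sh_lt (by omega) hi) (sh_lt (by omega) ((cell_pm n).lt i hi))]
    have := cell_val i
    have := sh_val (2 * n) 1 i
    have := sh_val (2 * n) 1 (cell i)
    have := sh_val (2 * n) (2 * j + 1) (sh (2 * n) 1 i)
    have := sh_val (2 * n) (2 * j + 1) (sh (2 * n) 1 (cell i))
    have := cell_val (sh (2 * n) (2 * j + 1) (sh (2 * n) 1 i))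
    omega
  refine Reach.of_rot hr hf (cell_pm n) ((hR.trans (Reach.of_rot (r := 1) (k := 4) (by omega) hF.pm
    hc ?_)).mono _ (by omega))
  by_cases c : g < n
  · refine (hh1 (g - 1) (by omega)).congr (key _ (hub1_pm (by omega)) fun x hx d => ?_) hcc
    have a1 := hub1_val (g - 1) x
    rw [rot_eq_iff hF.pm (by omega) hx ((hub1_pm (by omega)).lt x hx)]
    have a2 := sh_val (2 * n) 1 x
    have a3 := sh_val (2 * n) 1 (hub1 (g - 1) x)
    have a4 := Fv (sh (2 * n) 1 x) (by omega) (by omega)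
    omega
  · refine .refl fun i hi => ?_
    rw [hcc i hi]
    refine key _ (cell_pm n) (fun x hx d => ?_) i hi
    have a1 := cell_val x
    rw [rot_eq_iff hF.pm (by omega) hx ((cell_pm n).lt x hx)]
    have a2 := sh_val (2 * n) 1 x
    have a3 := sh_val (2 * n) 1 (cell x)
    have a4 := Fv (sh (2 * n) 1 x) (by omega) (by omega)
    omega

lemma Reach.edist {n k f g} (h : Reach (2 * n) k f g) : ∀ (hf : PM (2 * n) f) (hg : PM (2 * n) g),
    (DCG n IsOneLegged).edist ⟨_, hf.matching⟩ ⟨_, hg.matching⟩ ≤ k := by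
  induction h with
  | refl h =>
    intro hf hg
    have : (⟨_, hf.matching⟩ : {M // IsPlaneMatching M}) = ⟨_, hg.matching⟩ :=
      Subtype.ext (toG_congr h)
    rw [this]; simp
  | @step k f h g h1 h2 _ ih =>
    intro hf hg
    refine (SimpleGraph.edist_triangle (v := ⟨_, h1.matching⟩)).trans ?_
    have : (DCG n IsOneLegged).edist ⟨_, hf.matching⟩ ⟨_, h1.matching⟩ ≤ 1 := by
      rw [SimpleGraph.edist_le_one_iff_adj_or_eq]
      by_cases e : (⟨_, hf.matching⟩ : {M // IsPlaneMatching M}) = ⟨_, h1.matching⟩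
      · exact Or.inr e
      · exact Or.inl ⟨e, h2⟩
    refine (add_le_add this (ih h1 hg)).trans (le_of_eq ?_)
    push_cast; ring

theorem ediam_le {n} (h : ∀ f, PM (2 * n) f → Reach (2 * n) 7 f cell) :
    (DCG n IsOneLegged).ediam ≤ 14 := by
  refine SimpleGraph.ediam_le_of_edist_le fun M N => ?_
  obtain ⟨f, hf, e1⟩ := exists_PM M.2
  obtain ⟨g, hg, e2⟩ := exists_PM N.2
  have a1 : M = ⟨_, hf.matching⟩ := Subtype.ext e1.symm
  have a2 : N = ⟨_, hg.matching⟩ := Subtype.ext e2.symm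
  rw [a1, a2]
  refine (SimpleGraph.edist_triangle (v := ⟨_, (cell_pm n).matching⟩)).trans ?_
  refine (add_le_add ((h f hf).edist hf (cell_pm n))
    (SimpleGraph.edist_comm.trans_le ((h g hg).edist hg (cell_pm n)))).trans ?_
  norm_num

theorem ediam_mono (n : ℕ) : (DCG n IsCaterpillar).ediam ≤ (DCG n IsOneLegged).ediam :=
  SimpleGraph.ediam_anti fun _ _ ⟨h, D, ⟨h1, u, v, p, h2, h3, _⟩, h4⟩ =>
    ⟨h, D, ⟨h1, u, v, p, h2, h3⟩, h4⟩

theorem one_le_ediam {n} (hn : 2 ≤ n) (H) : 1 ≤ (DCG n H).ediam := by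
  rw [Order.one_le_iff_ne_zero]
  intro e
  have s := SimpleGraph.subsingleton_of_ediam_eq_zero e
  have p := hub_pm (n := n) (c := n) hn (Or.inl le_rfl)
  have a : toG (2 * n) cell = toG (2 * n) (hub n n) :=
    congrArg Subtype.val (s.elim ⟨_, (cell_pm n).matching⟩ ⟨_, p.matching⟩)
  have b : (toG (2 * n) cell).Adj ⟨0, by omega⟩ ⟨1, by omega⟩ := ((cell_pm n).adj _ _).2 rfl
  rw [a, p.adj] at b
  have := hub_val n n 0
  simp only at b
  omega

end Pool.Agent.P.MP_d44d06_co
end
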